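import Pool.Agent.TH186.Rank3

/-!
# Homomorphisms from a bundle of rank three to a line bundle
-/

set_option autoImplicit false

open scoped WithZero Matrix
open Pool.Agent.Helper395.CS hiding genus
open Pool.Agent.Helper395.BC

namespace Pool.Agent.TH186

variable {K : Type} [Field K] [Algebra ℂ K] {n : ℕ}

/-- `Hom(F, L)` is the Serre dual of `F ⊗ (K - L)` -/
theorem h0_dual_tw (hK : IsCurve K) (hg : genus K ≠ 0) (F : Bundle K n) (L : LineBundle K) :
    h0 (btw (bdual F) L) = h0 (dK hK hg (btw F (lmul (can hK hg) (linv L)))) := by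
  apply h0_congr
  intro v s
  have hc : ((can hK hg).frame v : K) ≠ 0 := Units.ne_zero _
  have hL : (L.frame v : K) ≠ 0 := Units.ne_zero _
  have hA : ((lmul (can hK hg) (linv L)).frame v : K) =
      ((can hK hg).frame v : K) * (L.frame v : K)⁻¹ := by
    change ((((can hK hg).frame v) * (L.frame v)⁻¹ : Kˣ) : K) = _
    rw [Units.val_mul, Units.val_inv_eq_inv_val]
  rw [dK, mem_btw, mem_btw, mem_bdual, mem_bdual]
  constructor
  · intro h t ht
    rw [mem_btw, hA] at ht
    have h1 := h _ ht
    convert h1 using 2
    refine Finset.sum_congr rfl fun i _ => ?_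
    simp only [Pi.smul_apply, smul_eq_mul]
    field_simp
  · intro h t ht
    have h2 : ((can hK hg).frame v : K) • (L.frame v : K)⁻¹ • t ∈
        (btw F (lmul (can hK hg) (linv L))).stalk v := by
      rw [mem_btw, hA, smul_smul, smul_smul]
      have : (((can hK hg).frame v : K) * (L.frame v : K)⁻¹)⁻¹ *
          (((can hK hg).frame v : K) * (L.frame v : K)⁻¹) = 1 := by
        apply inv_mul_cancel₀
        exact mul_ne_zero hc (inv_ne_zero hL)
      rw [mul_assoc, this, one_smul]
      exact ht
    have h1 := h _ h2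
    convert h1 using 2
    refine Finset.sum_congr rfl fun i _ => ?_
    simp only [Pi.smul_apply, smul_eq_mul]
    field_simp

/-- `N ≅ N* ⊗ det N` for bundles of rank two -/
theorem h0_le_dual_det (hK : IsCurve K) (hg : genus K ≠ 0) (N : Bundle K 2) :
    h0 N ≤ h0 (btw (bdual N) N.det) := by
  have := (rr hK hg (btw (bdual N) N.det)).1
  let φ : N.sections →ₗ[ℂ] (btw (bdual N) N.det).sections :=
    { toFun := fun s => ⟨![s.1 1, -s.1 0], fun v => by
        rw [mem_btw, mem_bdual]
        intro t ht
        have h1 := det_mem_stalk N v (s := ![s.1, t]) (by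
          intro i
          fin_cases i
          · exact s.2 v
          · exact ht)
        have h2 : v.val (Matrix.of ![s.1, t]).det ≤ v.val (N.det.frame v : K) := h1
        have h3 : ∑ i, ((N.det.frame v : K)⁻¹ • ![s.1 1, -s.1 0]) i * t i =
            (N.det.frame v : K)⁻¹ * (-(Matrix.of ![s.1, t]).det) := by
          rw [Fin.sum_univ_two, Matrix.det_fin_two]
          simp
          ring
        rw [h3, map_mul, Valuation.map_neg, map_inv₀,
          inv_mul_le_iff₀ (zero_lt_iff.2 (v.val_ne_zero (Units.ne_zero _))), mul_one]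
        exact h2⟩
      map_add' := fun s t => Subtype.ext (by
        change ![s.1 1 + t.1 1, -(s.1 0 + t.1 0)] = ![s.1 1, -s.1 0] + ![t.1 1, -t.1 0]
        funext i
        fin_cases i
        · rfl
        · change -(s.1 0 + t.1 0) = -s.1 0 + -t.1 0
          ring)
      map_smul' := fun c s => Subtype.ext (by
        change ![c • s.1 1, -(c • s.1 0)] = c • ![s.1 1, -s.1 0]
        funext i
        fin_cases i
        · rfl
        · change -(c • s.1 0) = c • -s.1 0
          rw [smul_neg]) }
  apply LinearMap.finrank_le_finrank_of_injective (f := φ)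
  intro s t hst
  have h1 : ![s.1 1, -s.1 0] = ![t.1 1, -t.1 0] := congrArg Subtype.val hst
  apply Subtype.ext
  funext i
  fin_cases i
  · have h2 : -s.1 0 = -t.1 0 := congrFun h1 1
    exact neg_injective h2
  · have h2 : s.1 1 = t.1 1 := congrFun h1 0
    exact h2

/-- Many homomorphisms `E → det N`, for `0 → N → E → M → 0` with `N` of rank two and degree seven
with three sections. -/
theorem hom_count (hK : IsCurve K) (hg : genus K ≠ 0)
    {N : Bundle K 2} {E : Bundle K 3} {M : Bundle K 1} {j : (Fin 2 → K) →ₗ[K] (Fin 3 → K)}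
    {P : (Fin 3 → K) →ₗ[K] (Fin 1 → K)} (hQ : IsQuot N E M j P) (hN : N.degree = 7)
    (hN3 : h0 N = 3) :
    18 - (genus K : ℤ) - E.degree +
      Module.finrank ℂ ↥(H0 (lmul (can hK hg) (linv N.det)) *
        E.sections.map (((LinearMap.proj 0).comp P).restrictScalars ℂ)) ≤
      h0 (btw (bdual E) N.det) := by
  set L := N.det with hL
  have hLd : L.degree = 7 := hN
  set A : LineBundle K := lmul (can hK hg) (linv L) with hA
  have hAd : A.degree = 2 * genus K - 9 := by
    rw [hA, lmul_degree, linv_degree, can_degree, hLd]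
    ring
  have h1 := dK_h0 hK hg (btw N A)
  have h2 := dK_h0 hK hg (btw E A)
  rw [← h0_dual_tw hK hg N L, btw_degree, hAd, hN] at h1
  rw [← h0_dual_tw hK hg E L, btw_degree, hAd] at h2
  have h3 := h0_le_dual_det hK hg N
  rw [← hL] at h3
  have hfE := (rr hK hg (btw E A)).1
  have h4 : h0 (btw N A) + Module.finrank ℂ ↥(H0 A *
      E.sections.map (((LinearMap.proj 0).comp P).restrictScalars ℂ)) ≤ h0 (btw E A) := by
    let Φ : (btw E A).sections →ₗ[ℂ] K :=
      (((LinearMap.proj 0).comp P).restrictScalars ℂ).comp (btw E A).sections.subtype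
    have h5 := LinearMap.finrank_range_add_finrank_ker Φ
    have h6 : H0 A * E.sections.map (((LinearMap.proj 0).comp P).restrictScalars ℂ) ≤
        LinearMap.range Φ := by
      rw [Submodule.mul_le]
      rintro a ha _ ⟨s, hs, rfl⟩
      refine ⟨⟨a • s, fun v => ?_⟩, ?_⟩
      · rw [mem_btw, smul_smul]
        apply stalk_smul (hs v)
        rw [map_mul, map_inv₀,
          inv_mul_le_iff₀ (zero_lt_iff.2 (v.val_ne_zero (Units.ne_zero _))), mul_one]
        exact ha v
      · change P (a • s) 0 = a * P s 0
        rw [map_smul, Pi.smul_apply, smul_eq_mul]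
    have h7 := Submodule.finrank_mono h6
    have h8 : h0 (btw N A) ≤ Module.finrank ℂ (LinearMap.ker Φ) := by
      let ψ : (btw N A).sections →ₗ[ℂ] LinearMap.ker Φ :=
        { toFun := fun s => ⟨⟨j s.1, fun v => ((btw_sub hQ.sub A).stalk v _).1 (s.2 v)⟩, by
            rw [LinearMap.mem_ker]
            change P (j s.1) 0 = 0
            rw [(hQ.ker _).2 ⟨s.1, rfl⟩]
            rfl⟩
          map_add' := fun s t => Subtype.ext (Subtype.ext (map_add j s.1 t.1))
          map_smul' := fun c s => Subtype.ext (Subtype.ext (by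
            change j (c • s.1) = c • j s.1
            rw [← algebraMap_smul K c s.1, map_smul, algebraMap_smul])) }
      exact LinearMap.finrank_le_finrank_of_injective (f := ψ) (fun x y hxy =>
        Subtype.ext (hQ.sub.injective (congrArg (fun z : LinearMap.ker Φ => z.1.1) hxy)))
    unfold h0 at *
    omega
  push_cast at h1 h2
  omega

end Pool.Agent.TH186
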