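import Pool.Agent.TH186.RankLow
import Pool.Agent.TH186.UniqLow

/-!
# Bundles of rank three on curves of genus seven and eight
-/

set_option autoImplicit false

open scoped WithZero Matrix
open Pool.Agent.Helper395.CS hiding genus
open Pool.Agent.Helper395.BC
open Pool.Agent.W525.BNK (mem_det_one det_one_degree)
open Pool.Agent.W525.BA (h0_scale h0_lsub)

namespace Pool.Agent.TH186.Low

variable {K : Type} [Field K] [Algebra ℂ K]

/-- a homomorphism to a line bundle and its kernel -/
theorem ker_of_hom (hK : IsCurve K) (hg : genus K ≠ 0) {E : Bundle K 3} (L : LineBundle K)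
    {ψ : Fin 3 → K} (hψ : ψ ∈ (btw (bdual E) L).sections) (hψ0 : ψ ≠ 0) :
    ∃ (G : Bundle K 2) (j : (Fin 2 → K) →ₗ[K] (Fin 3 → K)), IsSubbundle G E j ∧
      E.degree ≤ G.degree + L.degree ∧ h0 E ≤ h0 G + l0 L := by
  have hval : ∀ v : Point K, ∀ s ∈ E.stalk v, v.val (∑ i, ψ i * s i) ≤ v.val (L.frame v : K) := by
    intro v s hs
    have h1 := hψ v
    rw [mem_btw, mem_bdual] at h1
    have h2 := h1 s hs
    have h3 : ∑ i, (((L.frame v : Kˣ) : K)⁻¹ • ψ) i * s i =
        ((L.frame v : Kˣ) : K)⁻¹ * ∑ i, ψ i * s i := by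
      rw [Finset.mul_sum]
      exact Finset.sum_congr rfl fun i _ => by rw [Pi.smul_apply, smul_eq_mul, mul_assoc]
    rw [h3, map_mul, map_inv₀, inv_mul_le_iff₀ (zero_lt_iff.2 (v.val_ne_zero (Units.ne_zero _))),
      mul_one] at h2
    exact h2
  let P : (Fin 3 → K) →ₗ[K] (Fin 1 → K) :=
    { toFun := fun s _ => ∑ i, ψ i * s i
      map_add' := fun s t => by
        funext k
        change ∑ i, ψ i * (s i + t i) = ∑ i, ψ i * s i + ∑ i, ψ i * t i
        rw [← Finset.sum_add_distrib]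
        exact Finset.sum_congr rfl fun i _ => mul_add _ _ _
      map_smul' := fun c s => by
        funext k
        change ∑ i, ψ i * (c * s i) = c * ∑ i, ψ i * s i
        rw [Finset.mul_sum]
        exact Finset.sum_congr rfl fun i _ => by ring }
  have hP : Function.Surjective P := by
    intro t
    obtain ⟨i, hi⟩ := Function.ne_iff.1 hψ0
    refine ⟨Pi.single i (t 0 / ψ i), ?_⟩
    funext k
    change ∑ l, ψ l * (Pi.single i (t 0 / ψ i) : Fin 3 → K) l = t k
    rw [Finset.sum_eq_single i, Pi.single_eq_same, Subsingleton.elim k 0, mul_div_cancel₀]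
    · exact hi
    · intro l _ hl
      rw [Pi.single_eq_of_ne hl, mul_zero]
    · intro h
      exact absurd (Finset.mem_univ _) h
  obtain ⟨G, j, hj, h1, h2⟩ := exists_ker_sub hK E P hP (m := 2) (by norm_num)
  refine ⟨G, j, hj, ?_, ?_⟩
  · have h3 := (degree_exact hK (G := lsum L 1) hj hP h1 h2 (fun v s hs => by
      rw [mem_lsum_stalk]
      intro i
      exact hval v s hs)).1
    rw [lsum_degree] at h3
    simpa using h3
  · have := (rr hK hg E).1
    have := (rr hK hg G).1
    have := (rrL hK hg L).1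
    let φ : E.sections →ₗ[ℂ] H0 L :=
      { toFun := fun s => ⟨∑ i, ψ i * s.1 i, fun v => hval v s.1 (s.2 v)⟩
        map_add' := fun s t => Subtype.ext (by
          change ∑ i, ψ i * (s.1 i + t.1 i) = ∑ i, ψ i * s.1 i + ∑ i, ψ i * t.1 i
          rw [← Finset.sum_add_distrib]
          exact Finset.sum_congr rfl fun i _ => mul_add _ _ _)
        map_smul' := fun c s => Subtype.ext (by
          change ∑ i, ψ i * (c • s.1 i) = c • ∑ i, ψ i * s.1 i
          rw [Finset.smul_sum]
          exact Finset.sum_congr rfl fun i _ => mul_smul_comm _ _ _) }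
    have h4 := LinearMap.finrank_range_add_finrank_ker φ
    have h5 := Submodule.finrank_le (LinearMap.range φ)
    have h6 : Module.finrank ℂ (LinearMap.ker φ) ≤ h0 G := by
      have h7 := le_h0_of_range hK hg hj ((LinearMap.ker φ).map E.sections.subtype)
        (by
          rintro _ ⟨x, -, rfl⟩
          exact x.2)
        (by
          rintro _ ⟨x, hx, rfl⟩
          apply h1
          funext k
          have hx' : φ x = 0 := hx
          exact congrArg Subtype.val hx')
      rwa [Submodule.finrank_map_subtype_eq] at h7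
    unfold h0 l0 at *
    omega

/-- the statements of the jobs 433-437 -/
def HProp (K : Type) [Field K] [Algebra ℂ K] : Prop := ∀ (hK : IsCurve K) (hg : genus K ≠ 0)
    {N : Bundle K 2} {E : Bundle K 3} {M : Bundle K 1} {j : (Fin 2 → K) →ₗ[K] (Fin 3 → K)}
    {P : (Fin 3 → K) →ₗ[K] (Fin 1 → K)} (_ : IsQuot N E M j P) (_ : N.degree = 7)
    (_ : h0 N = 3),
    18 - (genus K : ℤ) - E.degree +
      Module.finrank ℂ ↥(H0 (lmul (can hK hg) (linv N.det)) *
        E.sections.map (((LinearMap.proj 0).comp P).restrictScalars ℂ)) ≤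
      h0 (btw (bdual E) N.det)

def DProp (K : Type) [Field K] [Algebra ℂ K] : Prop := ∀ (_ : IsCurve K) (_ : LB K)
    (A M : LineBundle K) (W : Submodule ℂ K) (_ : W ≤ H0 M),
    (7 ≤ genus K → A.degree = 5 → l0 A = 2 → M.degree = 7 → Module.finrank ℂ W = 3 →
      5 ≤ Module.finrank ℂ ↥(H0 A * W)) ∧
    (8 ≤ genus K → A.degree = 7 → l0 A = 3 → M.degree = 7 → Module.finrank ℂ W = 3 →
      6 ≤ Module.finrank ℂ ↥(H0 A * W)) ∧
    (8 ≤ genus K → A.degree = 7 → l0 A = 3 → M.degree = 9 → Module.finrank ℂ W = 4 →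
      7 ≤ Module.finrank ℂ ↥(H0 A * W))

def TProp (K : Type) [Field K] [Algebra ℂ K] : Prop := ∀ (_ : IsCurve K) (_ : 7 ≤ genus K)
    (_ : LB K) {E : Bundle K 3} (_ : E.degree = 14) (_ : h0 E = 6)
    (_ : ∀ (N : Bundle K 2) (j : (Fin 2 → K) →ₗ[K] (Fin 3 → K)), IsSubbundle N E j →
      3 ≤ h0 N → N.degree = 7 ∧ h0 N = 3)
    (L : LineBundle K) (_ : L.degree = 7) (_ : l0 L = 3)
    (_ : 2 ≤ h0 (btw (bdual E) L)),
    ∃ (X : Bundle K 1) (j : (Fin 1 → K) →ₗ[K] (Fin 3 → K))
      (P : (Fin 3 → K) →ₗ[K] (Fin 2 → K)), IsQuot X E (lsum L 2) j P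

def C6Prop (K : Type) [Field K] [Algebra ℂ K] : Prop := ∀ (_ : IsCurve K) (_ : genus K ≠ 0)
    (L : LineBundle K) (_ : L.degree = 7) (_ : l0 L = 3)
    (_ : ∀ M : LineBundle K, M.degree = 7 → 3 ≤ l0 M →
      Module.finrank ℂ ↥(H0 L * H0 M) ≤ 7 →
      ∃ c : Kˣ, ∀ v : Point K, v.val (M.frame v : K) = v.val (c : K) * v.val (L.frame v : K))
    (_ : ∀ M : LineBundle K, M.degree = 7 → l0 M ≤ 3)
    {E : Bundle K 3} (_ : NoLine E) (_ : E.degree = 14) (_ : h0 E = 6)
    {X : Bundle K 1} {j : (Fin 1 → K) →ₗ[K] (Fin 3 → K)} {P : (Fin 3 → K) →ₗ[K] (Fin 2 → K)}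
    (_ : IsQuot X E (lsum L 2) j P) (_ : h0 X = 0), False

def C5Prop (K : Type) [Field K] [Algebra ℂ K] : Prop := ∀ (_ : PRProp) (_ : IsCurve K)
    (_ : genus K ≠ 0) (L : LineBundle K) (_ : L.degree = 7) (_ : l0 L = 3)
    (_ : ∀ v : Point K, l0 (lsub L v) ≤ 2)
    {E : Bundle K 3} (_ : NoLine E) (_ : E.degree = 14) (_ : h0 E = 6)
    (_ : ∀ (N : Bundle K 2) (j : (Fin 2 → K) →ₗ[K] (Fin 3 → K)), IsSubbundle N E j →
      3 ≤ h0 N → N.degree = 7 ∧ h0 N = 3)
    {X : Bundle K 1} {j : (Fin 1 → K) →ₗ[K] (Fin 3 → K)} {P : (Fin 3 → K) →ₗ[K] (Fin 2 → K)}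
    (_ : IsQuot X E (lsum L 2) j P) (_ : h0 X = 1), False

theorem low_false (hPR : PRProp) (hLB : LB K) (hK : IsCurve K)
    (hg : genus K = 7 ∨ genus K = 8) (hH : HProp K) (hD : DProp K) (hT : TProp K)
    (hC6 : C6Prop K) (hC5 : C5Prop K) {E : Bundle K 3} (H : Hyp3 E) : False := by
  have hg7 : 7 ≤ genus K := by omega
  have hg0 : genus K ≠ 0 := by omega
  have hNL := noLine hPR hLB hK hg7 H
  have hd := degree_lt hPR hLB hK hg7 H
  have h6 := H.six
  have hplane : ∀ (N : Bundle K 2) (j : (Fin 2 → K) →ₗ[K] (Fin 3 → K)), IsSubbundle N E j →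
      3 ≤ h0 N → N.degree = 7 ∧ h0 N = 3 ∧ E.degree = 2 * h0 E + 2 ∧ (h0 E : ℤ) + 1 ≤ genus K := by
    intro N j hj h3
    obtain ⟨M, P, hQ⟩ := exists_quot (q := 1) hK hj (by norm_num)
    have h1 := plane hPR hLB hK hg7 H hQ h3
    have h2 := hLB.bundle M
    rcases h1 with h1 | h1
    · refine ⟨h1.1, h1.2.1, h1.2.2.1, ?_⟩
      omega
    · omega
  obtain ⟨N, j, hj, hN3⟩ : ∃ (N : Bundle K 2) (j : (Fin 2 → K) →ₗ[K] (Fin 3 → K)),
      IsSubbundle N E j ∧ 3 ≤ h0 N := by
    have := not_noPlane hPR hLB hK hg7 H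
    unfold NoPlane at this
    push Not at this
    obtain ⟨N, j, hj, h⟩ := this
    exact ⟨N, j, hj, h⟩
  obtain ⟨hN7, hN3', hdE, hhE⟩ := hplane N j hj hN3
  obtain ⟨M, P, hQ⟩ := exists_quot (q := 1) hK hj (by norm_num)
  have hM : h0 M + 3 = h0 E ∧ M.degree = 2 * h0 E - 5 := by
    have h1 := plane hPR hLB hK hg7 H hQ hN3
    omega
  have hLd : N.det.degree = 7 := hN7
  have hL3 : l0 N.det = 3 := by
    have h1 := pr2 hPR hK hg0 (hNL.sub hj) (by omega)
    have h2 := hLB.det N
    omega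
  set L := N.det with hL
  -- the line bundle `A = K - L`
  set A : LineBundle K := lmul (can hK hg0) (linv L) with hA
  have hAd : A.degree = 2 * genus K - 9 := by
    rw [hA, lmul_degree, linv_degree, can_degree, hLd]
    ring
  have hA0 : (l0 A : ℤ) = genus K - 5 := by
    have h1 := (rrL hK hg0 L).2
    rw [← hA, hLd] at h1
    unfold l0 at *
    omega
  -- the space `W`
  set W : Submodule ℂ K := E.sections.map (((LinearMap.proj 0).comp P).restrictScalars ℂ) with hW
  have hWM : W ≤ H0 M.det := by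
    rintro _ ⟨s, hs, rfl⟩
    intro v
    have h1 : P s ∈ M.stalk v := (hQ.stalk v _).2 ⟨s, hs v, rfl⟩
    exact (mem_det_one M v _).1 h1
  have hfE := (rr hK hg0 E).1
  have hWfin : FiniteDimensional ℂ W := inferInstance
  have hW1 : h0 E ≤ Module.finrank ℂ W + h0 N := by
    let φ : E.sections →ₗ[ℂ] W :=
      { toFun := fun s => ⟨P s.1 0, ⟨s.1, s.2, rfl⟩⟩
        map_add' := fun s t => Subtype.ext (by
          change P (s.1 + t.1) 0 = P s.1 0 + P t.1 0
          rw [map_add]
          rfl)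
        map_smul' := fun c s => Subtype.ext (by
          change P (c • s.1) 0 = c • P s.1 0
          rw [← algebraMap_smul K c s.1, map_smul, Pi.smul_apply, algebraMap_smul]) }
    have h4 := LinearMap.finrank_range_add_finrank_ker φ
    have h5 := Submodule.finrank_le (LinearMap.range φ)
    have h6 : Module.finrank ℂ (LinearMap.ker φ) ≤ h0 N := by
      have h7 := le_h0_of_range hK hg0 hj ((LinearMap.ker φ).map E.sections.subtype)
        (by
          rintro _ ⟨x, -, rfl⟩
          exact x.2)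
        (by
          rintro _ ⟨x, hx, rfl⟩
          apply (hQ.ker _).1
          funext k
          have hx' : φ x = 0 := hx
          rw [Subsingleton.elim k 0]
          exact congrArg Subtype.val hx')
      rwa [Submodule.finrank_map_subtype_eq] at h7
    unfold h0 at *
    omega
  have hW2 : Module.finrank ℂ W ≤ h0 M := by
    rw [h0_one M]
    have := (rrL hK hg0 M.det).1
    exact Submodule.finrank_mono hWM
  have hWf : Module.finrank ℂ W + 3 = h0 E := by omega
  have hMd : M.det.degree = 2 * h0 E - 5 := hM.2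
  have hc := hH hK hg0 hQ hN7 hN3'
  obtain ⟨d1, d2, d3⟩ := hD hK hLB A M.det W hWM
  rw [← hL, ← hA, ← hW] at hc
  -- the case of degree 14
  by_cases h6' : h0 E = 6
  · have hE14 : E.degree = 14 := by omega
    have h2 : 2 ≤ h0 (btw (bdual E) L) := by
      rcases hg with hg | hg
      · have := d1 hg7 (by omega) (by omega) (by omega) (by omega)
        omega
      · have := d2 (by omega) (by omega) (by omega) (by omega) (by omega)
        omega
    have hpl : ∀ (N : Bundle K 2) (j : (Fin 2 → K) →ₗ[K] (Fin 3 → K)), IsSubbundle N E j →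
      3 ≤ h0 N → N.degree = 7 ∧ h0 N = 3 := fun N j hj h => by
        have := hplane N j hj h
        exact ⟨this.1, this.2.1⟩
    obtain ⟨X, jX, PX, hX⟩ := hT hK hg7 hLB hE14 h6' hpl L hLd hL3 h2
    have hLB3 : ∀ M : LineBundle K, M.degree = 7 → l0 M ≤ 3 := by
      intro M hM
      have := hLB M
      unfold l0
      omega
    have hX1 := hNL X jX hX.sub
    rcases Nat.eq_zero_or_pos (h0 X) with h | h
    · exact hC6 hK hg0 L hLd hL3 (fun M hM hM3 hprod => by
        have hL3' : 3 ≤ Module.finrank ℂ (H0 L) := by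
          unfold l0 at hL3
          omega
        exact unique_of_prod hK hg7 hLB L M hLd hM hL3' hM3 hprod) hLB3 hNL hE14 h6' hX h
    · refine hC5 hPR hK hg0 L hLd hL3 (fun v => ?_) hNL hE14 h6' hpl hX (by omega)
      have h1 := hLB (lsub L v)
      have h2 := lsub_degree L v
      unfold l0
      omega
  · -- the case of degree 16
    have h1 : 1 ≤ h0 (btw (bdual E) L) := by
      have := d3 (by omega) (by omega) (by omega) (by omega) (by omega)
      omega
    have hpos : 0 < Module.finrank ℂ (btw (bdual E) L).sections := h1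
    have := Module.nontrivial_of_finrank_pos hpos
    obtain ⟨⟨ψ, hψ⟩, hψ0⟩ := exists_ne (0 : (btw (bdual E) L).sections)
    obtain ⟨G, jG, hG, h3, h4⟩ := ker_of_hom hK hg0 L hψ (fun h => hψ0 (Subtype.ext h))
    have h5 := hplane G jG hG (by omega)
    omega

end Pool.Agent.TH186.Low
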