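import Pool.Agent.TH186.Rank2

/-!
# Bundles of rank three
-/

set_option autoImplicit false

open scoped WithZero Matrix
open Pool.Agent.Helper395.CS hiding genus
open Pool.Agent.Helper395.BC
open Pool.Agent.W525.BNK (mem_det_one det_one_degree)
open Pool.Agent.W525.BA (h0_scale)

namespace Pool.Agent.TH186

variable {K : Type} [Field K] [Algebra ℂ K]

/-- `E` is semistable of rank three with `h⁰(E) ≥ 6`, `μ(E) ≤ g - 1` and `γ(E) ≤ 8/3`. -/
structure Hyp3 (E : Bundle K 3) : Prop where
  ss1 : ∀ (X : Bundle K 1) (i : (Fin 1 → K) →ₗ[K] (Fin 3 → K)), IsSubbundle X E i →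
    3 * X.degree ≤ E.degree
  ss2 : ∀ (X : Bundle K 2) (i : (Fin 2 → K) →ₗ[K] (Fin 3 → K)), IsSubbundle X E i →
    3 * X.degree ≤ 2 * E.degree
  six : 6 ≤ h0 E
  slope : E.degree ≤ 3 * ((genus K : ℤ) - 1)
  gamma : E.degree ≤ 2 * h0 E + 2

section

variable (hPR : PRProp) (hLB : LB K) (hK : IsCurve K) (hg : 9 ≤ genus K) {E : Bundle K 3}
  (H : Hyp3 E)

include hPR hLB hK hg H

/-- there is no line subbundle with two sections -/
theorem Hyp3.noLine : NoLine E := by
  have hg0 : genus K ≠ 0 := by omega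
  intro X j hj
  by_contra hX
  obtain ⟨F, P, hQ⟩ := exists_quot (q := 2) hK hj (by norm_num)
  have h1 := hLB.bundle X
  have h2 := H.ss1 X j hj
  have h3 := hQ.degree hK
  have h4 := hQ.h0_le hK hg0
  have h5 := H.slope
  have h6 := H.gamma
  have h7 := H.six
  have hZ : ∀ (Z : Bundle K 1) (i : (Fin 1 → K) →ₗ[K] (Fin 2 → K)), IsSubbundle Z F i →
      3 * (X.degree + Z.degree) ≤ 2 * E.degree := by
    intro Z i hZ
    obtain ⟨E', i', hE', hd, -, -⟩ := hQ.pre hK hg0 hZ
    have := H.ss2 E' i' hE'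
    omega
  rcases le_or_gt F.degree (2 * (genus K : ℤ) - 2) with hf | hf
  · refine rank2 hPR hLB hK hg F hf (by omega) (by omega) fun Z i hZi => ?_
    have := hZ Z i hZi
    omega
  · have h8 := dK_degree hK hg0 F
    have h9 := dK_h0 hK hg0 F
    refine rank2 hPR hLB hK hg (dK hK hg0 F) (by push_cast at h8; omega)
      (by push_cast at h8 h9; omega) (by push_cast at h8 h9; omega) fun A i hA => ?_
    obtain ⟨N, B, j', P', hQ', h10, h11⟩ := quot_of_dK_sub (m := 1) hK hg0 hA (by norm_num)
    have h12 := hQ'.degree hK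
    have h13 := hZ N j' hQ'.sub
    push_cast at h8 h10
    omega

theorem Hyp3.not_noPlane : ¬ NoPlane E := by
  have hg0 : genus K ≠ 0 := by omega
  intro h
  have h1 := pr3 hPR hK hg0 (H.noLine hPR hLB hK hg) h (by have := H.six; omega)
  have h2 := hLB.det E
  have h5 := H.slope
  have h6 := H.gamma
  have h7 := H.six
  omega

/-- numerical properties of the subbundles of rank two with three sections -/
theorem Hyp3.plane {N : Bundle K 2} {M : Bundle K 1} {j : (Fin 2 → K) →ₗ[K] (Fin 3 → K)}
    {P : (Fin 3 → K) →ₗ[K] (Fin 1 → K)} (hQ : IsQuot N E M j P) (h3 : 3 ≤ h0 N) :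
    (N.degree = 7 ∧ h0 N = 3 ∧ E.degree = 2 * h0 E + 2 ∧ h0 M + 3 = h0 E ∧
      M.degree = 2 * h0 E - 5) ∨
    ((h0 M : ℤ) + genus K ≤ M.degree + 2 ∧ 2 * (genus K : ℤ) + 2 ≤ E.degree) := by
  have hg0 : genus K ≠ 0 := by omega
  have h0' := (H.noLine hPR hLB hK hg).sub hQ.sub
  have h1 := pr2 hPR hK hg0 h0' (by omega)
  have h2 := hLB.det N
  have h4 := hLB.bundle M
  have h5 := H.slope
  have h6 := H.gamma
  have h7 := H.six
  have h8 := hQ.degree hK
  have h9 := hQ.h0_le hK hg0
  have h10 := H.ss2 N j hQ.sub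
  omega

theorem Hyp3.degree_lt : E.degree < 2 * (genus K : ℤ) + 2 := by
  have hg0 : genus K ≠ 0 := by omega
  by_contra hd
  rw [not_lt] at hd
  have h5 := H.slope
  have h6 := H.gamma
  have h7 := H.six
  -- the dual has no line subbundle with two sections
  have hN : NoLine (dK hK hg0 E) := by
    intro A i hA
    by_contra hA1
    obtain ⟨N, B, j, P, hQ, h1, h2⟩ := quot_of_dK_sub (m := 2) hK hg0 hA (by norm_num)
    have h3 := hQ.degree hK
    have h4 := hQ.h0_le hK hg0
    have h8 := hLB.bundle A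
    have h9 := hLB.bundle B
    push_cast at h1 h2
    by_cases h10 : 3 ≤ h0 N
    · rcases H.plane hPR hLB hK hg hQ h10 with h11 | h11 <;> omega
    · omega
  -- a section which vanishes at two points
  obtain ⟨p⟩ := point_nonempty hK
  have h1 := h0_tw hK hg0 E p
  have h2 := h0_tw hK hg0 (tw E p) p
  have h3 : 0 < h0 (tw (tw E p) p) := by omega
  have := Module.nontrivial_of_finrank_pos h3
  obtain ⟨⟨u, hu⟩, hu0⟩ := exists_ne (0 : (tw (tw E p) p).sections)
  have hu0' : u ≠ 0 := fun h => hu0 (Subtype.ext h)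
  obtain ⟨X, i, x, hX, hx, hX2⟩ := exists_line_two hK hg0 hu0' hu
  obtain ⟨F, P, hQ⟩ := exists_quot (q := 2) hK hX (by norm_num)
  have h8 := hQ.degree hK
  have h9 := hQ.h0_le hK hg0
  have h10 := H.noLine hPR hLB hK hg X i hX
  obtain ⟨i', hi'⟩ := hQ.dK hK hg0
  have h11 := hN.sub hi'
  have h12 := dK_degree hK hg0 F
  have h13 := dK_h0 hK hg0 F
  push_cast at h12 h13
  have h14 := pr2 hPR hK hg0 h11 (by omega)
  have h15 := hLB.det (dK hK hg0 F)
  omega

end

/-- the determinant with a section which vanishes at `p` and `q` -/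
theorem two_le_det (hK : IsCurve K) (hg : genus K ≠ 0) {G : Bundle K 2} (h : NoLine G)
    (h3 : 3 ≤ h0 G) {p q : Point K} {u : Fin 2 → K} (hu0 : u ≠ 0)
    (hu : u ∈ (tw (tw G p) q).sections) : 2 ≤ l0 (lsub (lsub G.det p) q) := by
  have hfin := (rr hK hg G).1
  have hfin2 := (rrL hK hg (lsub (lsub G.det p) q)).1
  have huG : u ∈ G.sections := tw_sections_le G p (tw_sections_le _ q hu)
  let φ : G.sections →ₗ[ℂ] H0 (lsub (lsub G.det p) q) :=
    { toFun := fun w => ⟨u 0 * w.1 1 - u 1 * w.1 0, fun v => by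
        rw [lsub, mem_lmul_linv, lsub, mem_lmul_linv]
        have h1 := hu v
        rw [mem_tw, mem_tw] at h1
        have h2 := det_mem_stalk G v (s := ![((lpt p).frame v : K) • ((lpt q).frame v : K) • u, w.1])
          (by
            intro i
            fin_cases i
            · exact h1
            · exact w.2 v)
        convert h2 using 1
        rw [Matrix.det_fin_two]
        simp
        ring⟩
      map_add' := fun w w' => Subtype.ext (by
        change u 0 * (w.1 1 + w'.1 1) - u 1 * (w.1 0 + w'.1 0) =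
          (u 0 * w.1 1 - u 1 * w.1 0) + (u 0 * w'.1 1 - u 1 * w'.1 0)
        ring)
      map_smul' := fun c w => Subtype.ext (by
        change u 0 * (c • w.1 1) - u 1 * (c • w.1 0) = c • (u 0 * w.1 1 - u 1 * w.1 0)
        simp only [Algebra.smul_def]
        ring) }
  have h1 := LinearMap.finrank_range_add_finrank_ker φ
  have h2 := Submodule.finrank_le (LinearMap.range φ)
  have h4 : Module.finrank ℂ (LinearMap.ker φ) ≤ 1 := by
    have hu1 : (⟨u, huG⟩ : G.sections) ∈ LinearMap.ker φ := by
      rw [LinearMap.mem_ker]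
      apply Subtype.ext
      change u 0 * u 1 - u 1 * u 0 = 0
      ring
    refine finrank_le_one ⟨⟨u, huG⟩, hu1⟩ ?_
    · rintro ⟨w, hw⟩
      rw [LinearMap.mem_ker] at hw
      have hw' : u 0 * w.1 1 - u 1 * w.1 0 = 0 := congrArg Subtype.val hw
      by_contra hcon
      push Not at hcon
      have hli : LinearIndependent ℂ ![u, w.1] := by
        rw [LinearIndependent.pair_iff' hu0]
        intro c hc
        apply hcon c
        apply Subtype.ext
        apply Subtype.ext
        exact hc
      have h5 := det_ne_zero_two hK hg h ![u, w.1] (by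
        intro i
        fin_cases i
        · exact huG
        · exact w.2) hli
      apply h5
      rw [Matrix.det_fin_two]
      simpa using hw'
  unfold h0 l0 at *
  omega

/-- Uniqueness of the `g²₇`. -/
def UProp (K : Type) [Field K] [Algebra ℂ K] : Prop := ∀ L M : LineBundle K, L.degree = 7 →
  M.degree = 7 → 3 ≤ Module.finrank ℂ (H0 L) → 3 ≤ Module.finrank ℂ (H0 M) →
    ∃ c : Kˣ, ∀ v : Point K, v.val (M.frame v : K) = v.val (c : K) * v.val (L.frame v : K)

/-- A `g²₇` has a simple point. -/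
def SProp (K : Type) [Field K] [Algebra ℂ K] : Prop := ∀ L : LineBundle K, L.degree = 7 →
  3 ≤ Module.finrank ℂ (H0 L) →
    ∃ p : Point K, ∀ q : Point K, Module.finrank ℂ (H0 (lsub (lsub L p) q)) ≤ 1

theorem l0_lsub_scale {L M : LineBundle K} {c : Kˣ}
    (h : ∀ v : Point K, v.val (M.frame v : K) = v.val (c : K) * v.val (L.frame v : K))
    (p q : Point K) : l0 (lsub (lsub L p) q) = l0 (lsub (lsub M p) q) := by
  apply h0_scale (c : K) c.ne_zero
  intro v
  change v.val (((L.frame v * ((lpt p).frame v)⁻¹) * ((lpt q).frame v)⁻¹ : Kˣ) : K) * v.val (c : K) =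
    v.val (((M.frame v * ((lpt p).frame v)⁻¹) * ((lpt q).frame v)⁻¹ : Kˣ) : K)
  rw [Units.val_mul, Units.val_mul, Units.val_mul, Units.val_mul, map_mul, map_mul, map_mul,
    map_mul, h v]
  simp only [mul_comm, mul_left_comm, mul_assoc]

/-- The main theorem for bundles of rank three. -/
theorem Hyp3.false (hPR : PRProp) (hLB : LB K) (hK : IsCurve K) (hg : 9 ≤ genus K)
    (hU : UProp K) (hS : SProp K) {E : Bundle K 3} (H : Hyp3 E) : False := by
  have hg0 : genus K ≠ 0 := by omega
  have hNL := H.noLine hPR hLB hK hg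
  have hd := H.degree_lt hPR hLB hK hg
  have h6 := H.six
  -- subbundles of rank two with three sections
  have hplane : ∀ (N : Bundle K 2) (j : (Fin 2 → K) →ₗ[K] (Fin 3 → K)), IsSubbundle N E j →
      3 ≤ h0 N → N.degree = 7 ∧ h0 N = 3 ∧ E.degree = 2 * h0 E + 2 ∧ (h0 E : ℤ) + 1 ≤ genus K := by
    intro N j hj h3
    obtain ⟨M, P, hQ⟩ := exists_quot (q := 1) hK hj (by norm_num)
    have h1 := H.plane hPR hLB hK hg hQ h3
    have h2 := hLB.bundle M
    rcases h1 with h1 | h1
    · refine ⟨h1.1, h1.2.1, h1.2.2.1, ?_⟩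
      omega
    · omega
  obtain ⟨N, j, hj, hN3⟩ : ∃ (N : Bundle K 2) (j : (Fin 2 → K) →ₗ[K] (Fin 3 → K)),
      IsSubbundle N E j ∧ 3 ≤ h0 N := by
    have := H.not_noPlane hPR hLB hK hg
    unfold NoPlane at this
    push Not at this
    obtain ⟨N, j, hj, h⟩ := this
    exact ⟨N, j, hj, h⟩
  obtain ⟨hN7, hN3', hdE, hhE⟩ := hplane N j hj hN3
  have hL3 : 3 ≤ l0 N.det := by
    have := pr2 hPR hK hg0 (hNL.sub hj) (by omega)
    omega
  obtain ⟨p, hp⟩ := hS N.det hN7 hL3
  -- three sections which vanish at `p`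
  have h1 := h0_tw hK hg0 E p
  have h2 : 3 ≤ h0 (tw E p) := by omega
  -- a section which vanishes at `p` and a further point `q`
  obtain ⟨q, u, hu0, hu⟩ : ∃ (q : Point K) (u : Fin 3 → K), u ≠ 0 ∧
      u ∈ (tw (tw E p) q).sections := by
    have hfin := (rr hK hg0 (tw E p)).1
    obtain ⟨f, hf⟩ : ∃ f : Fin 3 → (tw E p).sections, LinearIndependent ℂ f :=
      ⟨_, (Module.finBasis ℂ (tw E p).sections).linearIndependent.comp
        (Fin.castLE h2) (Fin.castLE_injective h2)⟩
    let s : Fin 3 → Fin 3 → K := fun i => (f i).1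
    have hs : ∀ i, s i ∈ (tw E p).sections := fun i => (f i).2
    have hli : LinearIndependent ℂ s :=
      hf.map' (Submodule.subtype _) (Submodule.ker_subtype _)
    by_cases hdet : (Matrix.of s).det = 0
    · exfalso
      -- the three sections generate a subbundle of rank two
      have h3 := span_lt_of_det hdet
      set U := Submodule.span K (Set.range s) with hUdef
      set S := Submodule.span ℂ (Set.range s) with hSdef
      have hSs : S ≤ (tw E p).sections := Submodule.span_le.2 (by rintro _ ⟨i, rfl⟩; exact hs i)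
      have hSU : ∀ x ∈ S, x ∈ U := by
        intro x hx
        have : S ≤ U.restrictScalars ℂ := Submodule.span_le.2 (by
          rintro _ ⟨i, rfl⟩
          exact Submodule.subset_span ⟨i, rfl⟩)
        exact this hx
      have h4 : Module.finrank ℂ S = 3 := by
        rw [hSdef, finrank_span_eq_card hli, Fintype.card_fin]
      have h5 : Module.finrank K U ≠ 0 := by
        intro h4
        rw [Submodule.finrank_eq_zero] at h4
        have h5 : s 0 ∈ U := Submodule.subset_span ⟨0, rfl⟩
        rw [h4, Submodule.mem_bot] at h5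
        exact hli.ne_zero 0 h5
      have hr : Module.finrank K U = 1 ∨ Module.finrank K U = 2 := by omega
      rcases hr with hr | hr
      · obtain ⟨X, i, hX, -, h7⟩ := exists_sub_of_subspace hK hg0 (tw E p) U hr S hSs hSU
        have := hNL.tw hK hg0 p X i hX
        omega
      · obtain ⟨X, i, hX, -, h7⟩ := exists_sub_of_subspace hK hg0 (tw E p) U hr S hSs hSU
        have h8 := sub_of_tw hX
        have h9 : h0 X ≤ h0 (btw X (linv (linv (lpt p)))) := by
          apply h0_mono hK hg0
          intro v s hs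
          rw [h8.stalk v s]
          exact tw_le E p v ((hX.stalk v s).1 hs)
        have h10 := hplane _ i h8 (by omega)
        have h11 := h10.1
        rw [btw_degree, linv_degree, linv_degree, lpt_degree] at h11
        have h12 := pr2 hPR hK hg0 ((hNL.tw hK hg0 p).sub hX) (by omega)
        have h13 := hLB.det X
        push_cast at h11
        omega
    · have h3 : 0 < (tw E p).degree := by
        rw [tw_degree]
        push_cast
        omega
      obtain ⟨q, c, hc0, hc⟩ := exists_vanishing_comb hK h3 hs hdet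
      refine ⟨q, _, ?_, hc⟩
      intro h4
      apply hc0
      funext i
      exact Fintype.linearIndependent_iff.1 hli c h4 i
  obtain ⟨X, i, x, hX, hx, hX2⟩ := exists_line_two hK hg0 hu0 hu
  obtain ⟨F, P, hQ⟩ := exists_quot (q := 2) hK hX (by norm_num)
  have h8 := hQ.degree hK
  have h9 := hQ.h0_le hK hg0
  have h10 := hNL X i hX
  have h11 := H.ss1 X i hX
  have hZ : ∀ (Z : Bundle K 1) (i : (Fin 1 → K) →ₗ[K] (Fin 2 → K)), IsSubbundle Z F i →
      Z.degree + 5 ≤ F.degree := by
    intro Z i hZ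
    obtain ⟨E', i', hE', hd', -, -⟩ := hQ.pre hK hg0 hZ
    have := H.ss2 E' i' hE'
    omega
  have h12 : X.degree = 2 := by
    by_contra hne
    exact rank2 hPR hLB hK hg F (by omega) (by omega) (by omega) hZ
  have h13 : h0 F + 1 = h0 E := by
    by_contra hne
    exact rank2 hPR hLB hK hg F (by omega) (by omega) (by omega) hZ
  -- a line subbundle of `F` with two sections
  obtain ⟨Y, iY, hY, hY2⟩ : ∃ (Y : Bundle K 1) (i : (Fin 1 → K) →ₗ[K] (Fin 2 → K)),
      IsSubbundle Y F i ∧ 2 ≤ h0 Y := by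
    by_contra hcon
    push Not at hcon
    have hNF : NoLine F := fun Y i hY => by
      have := hcon Y i hY
      omega
    have h14 := pr2 hPR hK hg0 hNF (by omega)
    have h15 := hLB.det F
    omega
  obtain ⟨T, iT, hT, hTd, hTh, hTj⟩ := hQ.pre hK hg0 hY
  have hT3 : 3 ≤ h0 T := by omega
  obtain ⟨hT7, hT3', -, -⟩ := hplane T iT hT hT3
  have hLT : 3 ≤ l0 (Bundle.det T) := by
    have := pr2 hPR hK hg0 (hNL.sub hT) (by omega)
    omega
  -- the section `u` in `T`
  obtain ⟨y, hy⟩ := hTj x
  have hyu : iT y = u := by rw [hy, hx]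
  have hyT : y ∈ (tw (tw T p) q).sections := fun v => by
    rw [(tw_sub (tw_sub hT p) q).stalk v y, hyu]
    exact hu v
  have hy0 : y ≠ 0 := by
    rintro rfl
    rw [map_zero] at hyu
    exact hu0 hyu.symm
  have h14 := two_le_det hK hg0 (hNL.sub hT) hT3 hy0 hyT
  obtain ⟨c, hc⟩ := hU N.det (Bundle.det T) hN7 hT7 hL3 hLT
  have h15 := l0_lsub_scale hc p q
  have h16 := hp q
  unfold l0 at *
  omega

end Pool.Agent.TH186
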