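import Pool.Agent.TH186.UniqLow
import Pool.Agent.TH186.Rank3
import Pool.Agent.TH350.J203

/-!
# Lower bounds for the dimension of products of spaces of sections
-/

set_option autoImplicit false

open scoped WithZero Matrix
open Pool.Agent.Helper395.CS hiding genus
open Pool.Agent.Helper395.BC
open Pool.Agent.W525.BA
open Pool.Agent.TH186
open Module
open Pool.Agent.TH596.J202 (ldeg_le val_lmul val_lprin finrank_ge_two decomp factor)
open Pool.Agent.TH350.J203 (mem_H0_lsub H0_lsub_le)

namespace Pool.Agent.TH186.Low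

variable {K : Type} [Field K] [Algebra ℂ K]

/-- a base point free pencil -/
theorem exists_pencil (hK : IsCurve K) (hg : genus K ≠ 0) (A : LineBundle K) (hd : 0 < A.degree)
    (h : ∀ v, finrank ℂ (H0 (lsub A v)) < finrank ℂ (H0 A)) :
    ∃ a0 ∈ H0 A, ∃ a1 ∈ H0 A, (∀ s t : ℂ, s • a0 + t • a1 = 0 → s = 0 ∧ t = 0) ∧
      ∀ v : Point K, v.val a0 = v.val (A.frame v : K) ∨ v.val a1 = v.val (A.frame v : K) := by
  classical
  have hfin : ∀ M : LineBundle K, FiniteDimensional ℂ (H0 M) := fun M => H0_finite hK hg M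
  obtain ⟨v₀⟩ := point_nonempty hK
  have h1 := h v₀
  have hnt : Nontrivial (H0 A) := Module.nontrivial_of_finrank_pos (R := ℂ) (by omega)
  obtain ⟨⟨x0, hx0V⟩, hx0'⟩ := exists_ne (0 : H0 A)
  have hx0 : x0 ≠ 0 := fun h => hx0' (Subtype.ext h)
  have hZ0 : {v : Point K | v.val x0 < v.val (A.frame v : K)}.Finite := by
    refine (A.finite.union (finite_ord hK x0)).subset fun v hv => ?_
    by_contra h
    simp only [Set.mem_union, Set.mem_ofPred_eq, not_or, not_not] at h
    have h2 := (v.val_eq_one_iff hx0).2 h.2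
    have hv' : v.val x0 < v.val (A.frame v : K) := hv
    rw [h2, h.1] at hv'
    exact lt_irrefl _ hv'
  obtain ⟨x1, hx1V, hx1⟩ : ∃ x1 ∈ H0 A, ∀ v : Point K, v.val x0 < v.val (A.frame v : K) →
      v.val x1 = v.val (A.frame v : K) := by
    have h1 := Subspace.biUnion_ne_univ_of_top_notMem (k := ℂ) (E := H0 A)
      (s := hZ0.toFinset.image (fun v => (H0 (lsub A v)).comap (H0 A).subtype)) (by
        intro h'
        rw [Finset.mem_image] at h'
        obtain ⟨v, _, hv⟩ := h'
        have h2 : H0 A ≤ H0 (lsub A v) := by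
          intro s hs
          have h3 : (⟨s, hs⟩ : H0 A) ∈ (H0 (lsub A v)).comap (H0 A).subtype := by
            rw [hv]; trivial
          exact h3
        have h4 := hfin (lsub A v)
        have h3 := Submodule.finrank_mono h2
        have h5 := h v
        omega)
    obtain ⟨⟨x1, hx1V⟩, hx1⟩ := (Set.ne_univ_iff_exists_notMem _).1 h1
    refine ⟨x1, hx1V, fun v hv => ?_⟩
    simp only [Set.mem_iUnion, not_exists] at hx1
    have h2 := hx1 _ (Finset.mem_image_of_mem _ (hZ0.mem_toFinset.2 hv))
    refine le_antisymm (hx1V v) ?_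
    by_contra h3
    apply h2
    change x1 ∈ H0 (lsub A v)
    rw [mem_H0_lsub]
    exact ⟨hx1V, not_le.1 h3⟩
  refine ⟨x0, hx0V, x1, hx1V, ?_, fun v => ?_⟩
  · intro s t hst
    -- a zero of `x0`
    obtain ⟨v, hv⟩ : ∃ v : Point K, v.val x0 < v.val (A.frame v : K) := by
      by_contra hcon
      push Not at hcon
      have h2 := ldeg_le hK (L := A) (M := lprin hK (Units.mk0 x0 hx0)) hcon
      rw [lprin_degree] at h2
      omega
    have h3 := hx1 v hv
    have ht : t = 0 := by
      by_contra ht
      have h4 : x1 = -((s / t) • x0) := by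
        have h5 : t • x1 = -(s • x0) := by
          rw [eq_neg_iff_add_eq_zero, add_comm]
          exact hst
        have h6 : x1 = t⁻¹ • (t • x1) := by rw [smul_smul, inv_mul_cancel₀ ht, one_smul]
        rw [h6, h5, smul_neg, smul_smul, div_eq_inv_mul]
      rw [h4, Valuation.map_neg, Algebra.smul_def, map_mul] at h3
      have h7 : v.val (algebraMap ℂ K (s / t)) * v.val x0 ≤ v.val x0 :=
        mul_le_of_le_one_left' (v.const_le _)
      rw [h3] at h7
      exact absurd hv (not_lt.2 h7)
    rw [ht, zero_smul, add_zero] at hst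
    exact ⟨(smul_eq_zero.1 hst).resolve_right hx0, ht⟩
  · rcases lt_or_ge (v.val x0) (v.val (A.frame v : K)) with h2 | h2
    · exact Or.inr (hx1 v h2)
    · exact Or.inl (le_antisymm (hx0V v) h2)

/-- the map `W × W → K` of a pencil -/
noncomputable def pmap (W : Submodule ℂ K) (a0 a1 : K) : (W × W) →ₗ[ℂ] K where
  toFun u := a0 * (u.1 : K) + a1 * (u.2 : K)
  map_add' u w := by
    change a0 * ((u.1 + w.1 : W) : K) + a1 * ((u.2 + w.2 : W) : K) =
      (a0 * (u.1 : K) + a1 * (u.2 : K)) + (a0 * (w.1 : K) + a1 * (w.2 : K))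
    rw [Submodule.coe_add, Submodule.coe_add]
    ring
  map_smul' c u := by
    change a0 * ((c • u.1 : W) : K) + a1 * ((c • u.2 : W) : K) =
      c • (a0 * (u.1 : K) + a1 * (u.2 : K))
    rw [Submodule.coe_smul, Submodule.coe_smul, smul_add, mul_smul_comm, mul_smul_comm]

theorem pencil_trick (hK : IsCurve K) (hg : genus K ≠ 0) (A M : LineBundle K) {W : Submodule ℂ K}
    (hW : W ≤ H0 M) {a0 a1 : K} (ha0 : a0 ≠ 0)
    (hgen : ∀ v : Point K, v.val a0 = v.val (A.frame v : K) ∨ v.val a1 = v.val (A.frame v : K)) :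
    2 * finrank ℂ W ≤ finrank ℂ (LinearMap.range (pmap W a0 a1)) +
      finrank ℂ (H0 (lmul M (linv A))) := by
  have hMfin := H0_finite hK hg M
  have hWfin : FiniteDimensional ℂ W := Submodule.finiteDimensional_of_le hW
  have hQfin := H0_finite hK hg (lmul M (linv A))
  have h1 := LinearMap.finrank_range_add_finrank_ker (pmap W a0 a1)
  rw [Module.finrank_prod] at h1
  have hker : ∀ u : LinearMap.ker (pmap W a0 a1),
      a0 * ((u : W × W).1 : K) + a1 * ((u : W × W).2 : K) = 0 := fun u => u.2
  have hmem : ∀ u : LinearMap.ker (pmap W a0 a1), ((u : W × W).2 : K) / a0 ∈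
      H0 (lmul M (linv A)) := by
    intro u w
    rw [mem_lmul_linv]
    change w.val (((u : W × W).2 : K) / a0 * (A.frame w : K)) ≤ w.val (M.frame w : K)
    have hu1 : w.val ((u : W × W).1 : K) ≤ w.val (M.frame w : K) := hW (u : W × W).1.2 w
    have hu2 : w.val ((u : W × W).2 : K) ≤ w.val (M.frame w : K) := hW (u : W × W).2.2 w
    rw [map_mul]
    rcases hgen w with h | h
    · rw [← h, ← map_mul, div_mul_cancel₀ _ ha0]
      exact hu2
    · rw [← h, ← map_mul]
      have h2 : ((u : W × W).2 : K) / a0 * a1 = -((u : W × W).1 : K) := by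
        field_simp
        linear_combination hker u
      rw [h2, Valuation.map_neg]
      exact hu1
  let Ψ : LinearMap.ker (pmap W a0 a1) →ₗ[ℂ] H0 (lmul M (linv A)) :=
    { toFun := fun u => ⟨((u : W × W).2 : K) / a0, hmem u⟩
      map_add' := fun a b => by
        apply Subtype.ext
        change (((a : W × W).2 + (b : W × W).2 : W) : K) / a0 =
          ((a : W × W).2 : K) / a0 + ((b : W × W).2 : K) / a0
        rw [Submodule.coe_add, add_div]
      map_smul' := fun c a => by
        apply Subtype.ext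
        change ((c • (a : W × W).2 : W) : K) / a0 = c • (((a : W × W).2 : K) / a0)
        rw [Submodule.coe_smul, Algebra.smul_def, Algebra.smul_def, mul_div_assoc] }
  have hΨ : Function.Injective Ψ := by
    rw [injective_iff_map_eq_zero]
    intro u hu
    have h2 : ((u : W × W).2 : K) / a0 = 0 := congrArg Subtype.val hu
    rw [div_eq_zero_iff] at h2
    have h3 : ((u : W × W).2 : K) = 0 := h2.resolve_right ha0
    have h4 := hker u
    rw [h3, mul_zero, add_zero] at h4
    have h5 : ((u : W × W).1 : K) = 0 := (mul_eq_zero.mp h4).resolve_left ha0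
    apply Subtype.ext
    apply Prod.ext
    · exact Subtype.ext h5
    · exact Subtype.ext h3
  have h2 := LinearMap.finrank_le_finrank_of_injective hΨ
  omega

theorem range_pmap_le {W V : Submodule ℂ K} {a0 a1 : K} (h0 : a0 ∈ V) (h1 : a1 ∈ V) :
    LinearMap.range (pmap W a0 a1) ≤ V * W := by
  rintro _ ⟨u, rfl⟩
  exact Submodule.add_mem _ (Submodule.mul_mem_mul h0 u.1.2) (Submodule.mul_mem_mul h1 u.2.2)

/-- a `g²₇` satisfies no quadratic equation -/
theorem no_quadric (hK : IsCurve K) (hg : 8 ≤ genus K) (hLB : LB K) (A : LineBundle K)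
    (hd : A.degree = 7) (h3 : finrank ℂ (H0 A) = 3) {a0 a1 y : K} (ha0 : a0 ∈ H0 A)
    (ha1 : a1 ∈ H0 A) (hy : y ∈ H0 A)
    (hli : ∀ s t : ℂ, s • a0 + t • a1 = 0 → s = 0 ∧ t = 0)
    (hyA : y ∉ Submodule.span ℂ {a0, a1}) {u w : K} (hu : u ∈ H0 A) (hw : w ∈ H0 A)
    (h : y * y = a0 * u + a1 * w) : False := by
  have hg0 : genus K ≠ 0 := by omega
  have hAfin := H0_finite hK hg0 A
  set B : Submodule ℂ K := Submodule.span ℂ {a0, a1} with hB
  have hBA : B ≤ H0 A := Submodule.span_le.2 (by
    rintro x (rfl | rfl)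
    · exact ha0
    · exact ha1)
  have ha0B : a0 ∈ B := Submodule.subset_span (Or.inl rfl)
  have ha1B : a1 ∈ B := Submodule.subset_span (Or.inr rfl)
  have hBfin : FiniteDimensional ℂ B := Submodule.finiteDimensional_of_le hBA
  have hB2 : finrank ℂ B = 2 := by
    have hli' : LinearIndependent ℂ ![(⟨a0, ha0B⟩ : B), ⟨a1, ha1B⟩] := by
      rw [LinearIndependent.pair_iff]
      intro s t hst
      exact hli s t (congrArg Subtype.val hst)
    have h1 : 2 ≤ finrank ℂ B := by
      have := hli'.fintype_card_le_finrank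
      simpa using this
    have h2 : B < H0 A := lt_of_le_of_ne hBA (fun h => hyA (by rw [h]; exact hy))
    have h3 := Submodule.finrank_lt_finrank_of_lt h2
    omega
  have hdec := decomp hBA hB2 h3 hy hyA
  obtain ⟨s, hs⟩ := hdec u hu
  obtain ⟨t, ht⟩ := hdec w hw
  rw [hB, Submodule.mem_span_pair] at hs ht
  obtain ⟨p0, q0, hpq0⟩ := hs
  obtain ⟨p1, q1, hpq1⟩ := ht
  -- complete the square
  set y' := y - (s / 2) • a0 - (t / 2) • a1 with hy'
  obtain ⟨p, q, r, o, e1, e2, e3⟩ := factor (p0 + s ^ 2 / 4) (q0 + p1 + s * t / 2) (q1 + t ^ 2 / 4)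
  set l1 := p • a0 + q • a1 with hl1
  set l2 := r • a0 + o • a1 with hl2
  have hprod : y' * y' = l1 * l2 := by
    have : CharZero K := charZero_of_injective_algebraMap (algebraMap ℂ K).injective
    rw [hy', hl1, hl2]
    simp only [Algebra.smul_def, map_div₀, map_ofNat] at hpq0 hpq1 ⊢
    have f1 : algebraMap ℂ K p * algebraMap ℂ K r = algebraMap ℂ K p0 +
        algebraMap ℂ K s ^ 2 / 4 := by
      rw [← map_mul, e1, map_add, map_div₀, map_pow, map_ofNat]
    have f2 : algebraMap ℂ K p * algebraMap ℂ K o + algebraMap ℂ K q * algebraMap ℂ K r =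
        algebraMap ℂ K q0 + algebraMap ℂ K p1 + algebraMap ℂ K s * algebraMap ℂ K t / 2 := by
      rw [← map_mul, ← map_mul, ← map_add, e2, map_add, map_add, map_div₀, map_mul, map_ofNat]
    have f3 : algebraMap ℂ K q * algebraMap ℂ K o = algebraMap ℂ K q1 +
        algebraMap ℂ K t ^ 2 / 4 := by
      rw [← map_mul, e3, map_add, map_div₀, map_pow, map_ofNat]
    linear_combination h - a0 ^ 2 * f1 - a0 * a1 * f2 - a1 ^ 2 * f3 - a0 * hpq0 - a1 * hpq1
  have hl1B : l1 ∈ B := B.add_mem (B.smul_mem _ ha0B) (B.smul_mem _ ha1B)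
  have hl2B : l2 ∈ B := B.add_mem (B.smul_mem _ ha0B) (B.smul_mem _ ha1B)
  have hy'B : y' ∉ B := fun h' => hyA (by
    have := B.add_mem (B.add_mem h' (B.smul_mem (t / 2) ha1B)) (B.smul_mem (s / 2) ha0B)
    rwa [hy', sub_add_cancel, sub_add_cancel] at this)
  have hy'0 : y' ≠ 0 := fun h => hy'B (by rw [h]; exact B.zero_mem)
  have hl10 : l1 ≠ 0 := by
    intro h
    rw [h, zero_mul] at hprod
    exact mul_ne_zero hy'0 hy'0 hprod
  have hl20 : l2 ≠ 0 := by
    intro h
    rw [h, mul_zero] at hprod
    exact mul_ne_zero hy'0 hy'0 hprod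
  have hy'A : y' ∈ H0 A := (H0 A).sub_mem ((H0 A).sub_mem hy ((H0 A).smul_mem _ ha0))
    ((H0 A).smul_mem _ ha1)
  have hfin : ∀ N : LineBundle K, FiniteDimensional ℂ (H0 N) := fun N => H0_finite hK hg0 N
  have hdeg : ∀ (l : K) (hl : l ∈ B) (hl0 : l ≠ 0),
      5 ≤ (lsup (lprin hK (Units.mk0 y' hy'0)) (lprin hK (Units.mk0 l hl0))).degree := by
    intro l hl hl0
    set T1 := lsup (lprin hK (Units.mk0 y' hy'0)) (lprin hK (Units.mk0 l hl0)) with hT1
    have hT1v : ∀ w : Point K, w.val (T1.frame w : K) = max (w.val y') (w.val l) := by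
      intro w
      rw [hT1, val_lsup]
      rfl
    have h2 : 2 ≤ finrank ℂ (H0 T1) := by
      have := hfin T1
      refine finrank_ge_two (a := y') (b := l) ?_ ?_ ?_
      · intro w
        show w.val y' ≤ w.val (T1.frame w : K)
        rw [hT1v]; exact le_max_left _ _
      · intro w
        show w.val l ≤ w.val (T1.frame w : K)
        rw [hT1v]; exact le_max_right _ _
      · intro s t hst
        have hs : s = 0 := by
          by_contra hs
          apply hy'B
          have h3 : y' = (-(t / s)) • l := by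
            have h4 : s • y' = -(t • l) := eq_neg_of_add_eq_zero_left hst
            have h5 : y' = s⁻¹ • (s • y') := by
              rw [smul_smul, inv_mul_cancel₀ hs, one_smul]
            rw [h5, h4, smul_neg, smul_smul, neg_smul, div_eq_inv_mul]
          rw [h3]
          exact B.smul_mem _ hl
        refine ⟨hs, ?_⟩
        rw [hs, zero_smul, zero_add] at hst
        exact (smul_eq_zero.mp hst).resolve_right hl0
    rcases hLB T1 with h | h | h <;> omega
  have hd1 := hdeg l1 hl1B hl10
  have hd2 := hdeg l2 hl2B hl20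
  have hfinal : (lmul (lsup (lprin hK (Units.mk0 y' hy'0)) (lprin hK (Units.mk0 l1 hl10)))
      (lsup (lprin hK (Units.mk0 y' hy'0)) (lprin hK (Units.mk0 l2 hl20)))).degree ≤
      (lmul (lprin hK (Units.mk0 y' hy'0)) A).degree := by
    apply ldeg_le hK
    intro w
    rw [val_lmul, val_lmul, val_lsup, val_lsup]
    show max (w.val y') (w.val l1) * max (w.val y') (w.val l2) ≤
      w.val y' * w.val (A.frame w : K)
    have z1 : w.val y' ≤ w.val (A.frame w : K) := hy'A w
    have z3 : w.val l1 ≤ w.val (A.frame w : K) := hBA hl1B w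
    have z4 : w.val l2 ≤ w.val (A.frame w : K) := hBA hl2B w
    rcases max_choice (w.val y') (w.val l1) with h | h <;>
      rcases max_choice (w.val y') (w.val l2) with h' | h' <;> rw [h, h']
    · exact mul_le_mul' le_rfl z1
    · exact mul_le_mul' le_rfl z4
    · rw [mul_comm]
      exact mul_le_mul' le_rfl z3
    · rw [← map_mul, ← hprod, map_mul]
      exact mul_le_mul' le_rfl z1
  rw [lmul_degree, lmul_degree, lprin_degree, hd] at hfinal
  omega

/-- Lower bounds for the dimension of a product of spaces of sections. -/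
theorem prod_bound (hK : IsCurve K) (hLB : LB K)
    (A M : LineBundle K) (W : Submodule ℂ K) (hW : W ≤ H0 M) :
    (7 ≤ genus K → A.degree = 5 → l0 A = 2 → M.degree = 7 → Module.finrank ℂ W = 3 →
      5 ≤ Module.finrank ℂ ↥(H0 A * W)) ∧
    (8 ≤ genus K → A.degree = 7 → l0 A = 3 → M.degree = 7 → Module.finrank ℂ W = 3 →
      6 ≤ Module.finrank ℂ ↥(H0 A * W)) ∧
    (8 ≤ genus K → A.degree = 7 → l0 A = 3 → M.degree = 9 → Module.finrank ℂ W = 4 →
      7 ≤ Module.finrank ℂ ↥(H0 A * W)) := by
  have key : 7 ≤ genus K → 0 < A.degree → (∀ v, finrank ℂ (H0 (lsub A v)) < finrank ℂ (H0 A)) →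
      ∃ a0 ∈ H0 A, ∃ a1 ∈ H0 A, (∀ s t : ℂ, s • a0 + t • a1 = 0 → s = 0 ∧ t = 0) ∧
      2 * finrank ℂ W ≤ finrank ℂ (LinearMap.range (pmap W a0 a1)) +
        finrank ℂ (H0 (lmul M (linv A))) ∧
      finrank ℂ (LinearMap.range (pmap W a0 a1)) ≤ finrank ℂ ↥(H0 A * W) := by
    intro hg hd h
    have hg0 : genus K ≠ 0 := by omega
    obtain ⟨a0, ha0, a1, ha1, hli, hgen⟩ := exists_pencil hK hg0 A hd h
    have ha00 : a0 ≠ 0 := by
      intro h0
      exact one_ne_zero (hli 1 0 (by rw [h0]; simp)).1
    have hAfin := H0_finite hK hg0 A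
    have hMfin := H0_finite hK hg0 M
    have hWfin : FiniteDimensional ℂ W := Submodule.finiteDimensional_of_le hW
    have hfin : FiniteDimensional ℂ (H0 A * W : Submodule ℂ K) :=
      Module.Finite.iff_fg.2 ((Module.Finite.iff_fg.1 hAfin).mul (Module.Finite.iff_fg.1 hWfin))
    exact ⟨a0, ha0, a1, ha1, hli, pencil_trick hK hg0 A M hW ha00 hgen,
      Submodule.finrank_mono (range_pmap_le ha0 ha1)⟩
  have hQd : (lmul M (linv A)).degree = M.degree - A.degree := by
    rw [lmul_degree, linv_degree]
    ring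
  have hQ := hLB (lmul M (linv A))
  rw [hQd] at hQ
  have hlow : ∀ v, (lsub A v).degree = A.degree - 1 := lsub_degree A
  refine ⟨?_, ?_, ?_⟩
  · intro hg hd h2 hMd hW3
    obtain ⟨a0, -, a1, -, -, h5, h6⟩ := key hg (by omega) (fun v => by
      have h3 := hLB (lsub A v)
      rw [hlow, hd] at h3
      unfold l0 at h2
      omega)
    omega
  · intro hg hd h3 hMd hW3
    have hg0 : genus K ≠ 0 := by omega
    obtain ⟨a0, ha0, a1, ha1, hli, h5, h6⟩ := key (by omega) (by omega) (fun v => by
      have h4 := hLB (lsub A v)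
      rw [hlow, hd] at h4
      unfold l0 at h3
      omega)
    by_cases hQ0 : finrank ℂ (H0 (lmul M (linv A))) = 0
    · omega
    -- `M ≅ A`
    have hQfin := H0_finite hK hg0 (lmul M (linv A))
    have hnt : Nontrivial (H0 (lmul M (linv A))) :=
      Module.nontrivial_of_finrank_pos (R := ℂ) (by omega)
    obtain ⟨⟨c, hc⟩, hc0'⟩ := exists_ne (0 : H0 (lmul M (linv A)))
    have hc0 : c ≠ 0 := fun h => hc0' (Subtype.ext h)
    have hle : ∀ v : Point K, v.val ((lmul (lprin hK (Units.mk0 c hc0)) A).frame v : K) ≤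
        v.val (M.frame v : K) := by
      intro v
      rw [val_lmul]
      have h7 := hc v
      rw [mem_lmul_linv] at h7
      change v.val (c * (A.frame v : K)) ≤ _ at h7
      rw [map_mul] at h7
      exact h7
    have heq : ∀ v : Point K, v.val (M.frame v : K) = v.val c * v.val (A.frame v : K) := by
      intro v
      have h7 := lstalk_eq_of_degree_eq hK (L := lmul (lprin hK (Units.mk0 c hc0)) A) (M := M)
        (fun v s hs => le_trans hs (hle v)) (by
          rw [lmul_degree, lprin_degree, hMd, hd, zero_add]) v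
      have h8 : (M.frame v : K) ∈ (lmul (lprin hK (Units.mk0 c hc0)) A).stalk v := by
        rw [h7]
        exact le_refl (v.val (M.frame v : K))
      have h9 := le_antisymm h8 (hle v)
      rw [h9, val_lmul]
      rfl
    have hMfin := H0_finite hK hg0 M
    have hAfin := H0_finite hK hg0 A
    have hM3 : finrank ℂ (H0 M) ≤ 3 := by
      have := hLB M
      rw [hMd] at this
      omega
    have hWM : W = H0 M := Submodule.eq_of_le_of_finrank_le hW (by omega)
    have hWfin : FiniteDimensional ℂ W := Submodule.finiteDimensional_of_le hW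
    have hfin : FiniteDimensional ℂ (H0 A * W : Submodule ℂ K) :=
      Module.Finite.iff_fg.2 ((Module.Finite.iff_fg.1 hAfin).mul (Module.Finite.iff_fg.1 hWfin))
    -- an element outside the pencil
    obtain ⟨y, hy, hyA⟩ : ∃ y ∈ H0 A, y ∉ Submodule.span ℂ {a0, a1} := by
      classical
      by_contra hcon
      push Not at hcon
      have h7 : finrank ℂ (Submodule.span ℂ {a0, a1}) ≤ 2 := by
        have h8 := finrank_span_finset_le_card (R := ℂ) (({a0, a1} : Finset K))
        have h9 : ({a0, a1} : Finset K).card ≤ 2 := Finset.card_le_two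
        simp only [Finset.coe_insert, Finset.coe_singleton] at h8
        unfold Set.finrank at h8
        omega
      have h8 : H0 A ≤ Submodule.span ℂ {a0, a1} := hcon
      have hspf : FiniteDimensional ℂ (Submodule.span ℂ ({a0, a1} : Set K)) :=
        FiniteDimensional.span_of_finite ℂ (Set.toFinite _)
      have h9 := Submodule.finrank_mono h8
      unfold l0 at h3
      omega
    have hcy : c * y ∈ W := by
      rw [hWM]
      intro v
      change v.val (c * y) ≤ v.val (M.frame v : K)
      rw [map_mul, heq]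
      exact mul_le_mul' le_rfl (hy v)
    have hprod : y * (c * y) ∈ H0 A * W := Submodule.mul_mem_mul hy hcy
    have hlt : LinearMap.range (pmap W a0 a1) < H0 A * W := by
      refine lt_of_le_of_ne (range_pmap_le ha0 ha1) ?_
      intro h7
      rw [← h7] at hprod
      obtain ⟨⟨w0, w1⟩, hw⟩ := hprod
      have hw' : a0 * (w0 : K) + a1 * (w1 : K) = y * (c * y) := hw
      have hdiv : ∀ w ∈ W, w / c ∈ H0 A := by
        intro w hw v
        change v.val (w / c) ≤ v.val (A.frame v : K)
        have h8 : v.val w ≤ v.val c * v.val (A.frame v : K) := by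
          rw [← heq]
          exact hW hw v
        rw [map_div₀, div_le_iff₀ (zero_lt_iff.2 (v.val_ne_zero hc0)), mul_comm]
        exact h8
      refine no_quadric hK hg hLB A hd h3 ha0 ha1 hy hli hyA (hdiv _ w0.2) (hdiv _ w1.2) ?_
      field_simp
      linear_combination -hw'
    have h8 := Submodule.finrank_lt_finrank_of_lt hlt
    omega
  · intro hg hd h3 hMd hW4
    obtain ⟨a0, -, a1, -, -, h5, h6⟩ := key (by omega) (by omega) (fun v => by
      have h4 := hLB (lsub A v)
      rw [hlow, hd] at h4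
      unfold l0 at h3
      omega)
    omega

end Pool.Agent.TH186.Low
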