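import Pool.Agent.TH186.Final
import Pool.Agent.TH186.LowFinal
import Pool.Agent.TH186.HomCount
import Pool.Agent.TH186.ProdBound
import Pool.Agent.TH829.PRLemma
import Pool.Agent.TH596.J202
import Pool.Agent.TH350.J203

/-!
# `Cliff_3(C) = 3` for all genera
-/

set_option autoImplicit false

open scoped WithZero Matrix
open Pool.Agent.Helper395.CS hiding genus
open Pool.Agent.Helper395.BC
open Pool.Agent.W525.BNK (mem_det_one det_one_degree)
open Pool.Agent.W525.BA (h0_scale)

namespace Pool.Agent.TH186.Low

variable {K : Type} [Field K] [Algebra ℂ K] {n : ℕ}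

/-- The rank-3 Clifford index of a curve of Clifford index 3. -/
theorem cliff3_of (hK : IsCurve K) (hg0 : genus K ≠ 0)
    (hF : ∀ E : Bundle K 3, Hyp3 E → False) (h : IsCliff K 1 3) : IsCliff K 3 3 := by
  constructor
  · -- the bundle `A ⊕ A ⊕ A`
    obtain ⟨A, hA, hAγ⟩ := h.1
    set L := A.det with hL
    have h1 := h0_one A
    have hd : A.degree = L.degree := (det_one_degree A).symm
    have h2 := hA.sections
    have h3 := hA.slope
    have h4 : Module.finrank ℂ (lsum L 3).sections = 3 * l0 L := by
      have hfin := (rrL hK hg0 L).1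
      rw [(secEquiv L 3).finrank_eq, Module.finrank_pi_fintype]
      simp
    have h5 : (l0 L : ℤ) = Module.finrank ℂ A.sections := by
      unfold h0 at h1
      rw [h1]
    refine ⟨lsum L 3, ⟨?_, ?_, ?_⟩, ?_⟩
    · intro m F j hm hj
      have h6 := sub_lsum_degree hK L hj
      rw [lsum_degree]
      have hm' : (0 : ℚ) < m := by exact_mod_cast hm
      push_cast
      rw [div_le_iff₀ hm']
      have h7 : (F.degree : ℚ) ≤ ((m * L.degree : ℤ) : ℚ) := by exact_mod_cast h6
      push_cast at h7
      linarith
    · rw [h4]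
      unfold h0 at h1
      omega
    · rw [lsum_degree]
      push_cast
      rw [hd] at h3
      push_cast at h3
      linarith
    · unfold gam at hAγ ⊢
      rw [h4, lsum_degree]
      rw [hd] at hAγ
      have h6 : (Module.finrank ℂ A.sections : ℚ) = (l0 L : ℚ) := by exact_mod_cast h5.symm
      rw [h6] at hAγ
      push_cast at hAγ ⊢
      linarith
  · rintro x ⟨E, hE, rfl⟩
    by_contra hlt
    rw [not_le] at hlt
    -- `3 γ(E)` is an integer
    have h1 : gam E ≤ 8 / 3 := by
      unfold gam at hlt ⊢
      push_cast at hlt ⊢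
      rw [div_lt_iff₀ (by norm_num)] at hlt
      rw [div_le_iff₀ (by norm_num)]
      have h2 : (E.degree - 2 * ((Module.finrank ℂ E.sections : ℤ) - 3) : ℤ) < 9 := by
        have : ((E.degree - 2 * ((Module.finrank ℂ E.sections : ℤ) - 3) : ℤ) : ℚ) < (9 : ℤ) := by
          push_cast
          linarith
        exact_mod_cast this
      have h3 : (E.degree - 2 * ((Module.finrank ℂ E.sections : ℤ) - 3) : ℤ) ≤ 8 := by omega
      have h4 : ((E.degree - 2 * ((Module.finrank ℂ E.sections : ℤ) - 3) : ℤ) : ℚ) ≤ (8 : ℤ) := by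
        exact_mod_cast h3
      push_cast at h4
      linarith
    exact hF E (hyp3_of_contributes hE h1)

theorem pr : PRProp := fun _ _ _ => Pool.Agent.TH829.PRL.PR

/-- The rank-3 Clifford index of a curve of Clifford index 3. -/
theorem cliff3_all (hK : IsCurve K) (hg : 7 ≤ genus K) (hT : TProp K)
    (hC6 : C6Prop K) (hC5 : C5Prop K) (h : IsCliff K 1 3) : IsCliff K 3 3 := by
  have hg0 : genus K ≠ 0 := by omega
  have hLB := lb_of_cliff hK hg0 h
  refine cliff3_of hK hg0 (fun E hE => ?_) h
  rcases le_or_gt 9 (genus K) with h9 | h9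
  · exact hE.false pr hLB hK h9 (Pool.Agent.TH596.J202.g27_unique hK h9 hLB)
      (Pool.Agent.TH350.J203.exists_simple hK h9 hLB)
  · exact low_false pr hLB hK (by omega) (fun hK hg => hom_count hK hg)
      (fun hK hLB => prod_bound hK hLB) hT hC6 hC5 hE

end Pool.Agent.TH186.Low
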