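import Pool.Agent.TH186.Defs
import Pool.Agent.W518.PC.Quot
import Pool.Agent.W518.PC.Quot2
import Pool.Agent.W358.PC.K
import Pool.Agent.W525.BNK
import Pool.Agent.W525.Cliff
import Pool.Agent.W518.SMR.Odd

/-!
# Quotients, preimages and duals of bundles
-/

set_option autoImplicit false

open scoped WithZero Matrix
open Pool.Agent.Helper395.CS hiding genus
open Pool.Agent.Helper395.BC
open Pool.Agent.W518.PC (s_Q s_Q2 dot_transpose)
open Pool.Agent.W525.BNK (mem_det_one det_one_degree)

namespace Pool.Agent.TH186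

variable {K : Type} [Field K] [Algebra ℂ K] {n m q : ℕ}

/-- `h⁰(E)` -/
noncomputable abbrev h0 (E : Bundle K n) : ℕ := Module.finrank ℂ E.sections

/-- `h⁰(L)` for line bundles -/
noncomputable abbrev l0 (L : LineBundle K) : ℕ := Module.finrank ℂ (H0 L)

theorem h0_one (X : Bundle K 1) : h0 X = l0 X.det := by
  let e : X.sections ≃ₗ[ℂ] H0 X.det :=
    { toFun := fun s => ⟨s.1 0, fun v => (mem_det_one X v s.1).1 (s.2 v)⟩
      invFun := fun s => ⟨fun _ => s.1, fun v => (mem_det_one X v _).2 (s.2 v)⟩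
      left_inv := fun s => Subtype.ext (by
        funext i
        rw [Subsingleton.elim i 0])
      right_inv := fun s => rfl
      map_add' := fun s t => rfl
      map_smul' := fun c s => rfl }
  exact e.finrank_eq

theorem LB.bundle (h : LB K) (X : Bundle K 1) : h0 X ≤ 1 ∨ 2 * (h0 X : ℤ) + 1 ≤ X.degree ∨
    (h0 X : ℤ) + genus K ≤ X.degree + 2 := by
  have h1 := h X.det
  rw [h0_one X]
  exact h1

/-- `0 → F → E → G → 0` is exact -/
structure IsQuot (F : Bundle K m) (E : Bundle K n) (G : Bundle K q)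
    (j : (Fin m → K) →ₗ[K] (Fin n → K)) (P : (Fin n → K) →ₗ[K] (Fin q → K)) : Prop where
  sub : IsSubbundle F E j
  surj : Function.Surjective P
  ker : ∀ s, P s = 0 ↔ s ∈ LinearMap.range j
  stalk : ∀ v t, t ∈ G.stalk v ↔ ∃ s ∈ E.stalk v, P s = t

theorem exists_quot (hK : IsCurve K) {E : Bundle K n} {F : Bundle K m}
    {j : (Fin m → K) →ₗ[K] (Fin n → K)} (hj : IsSubbundle F E j) (hn : n = m + q) :
    ∃ (G : Bundle K q) (P : (Fin n → K) →ₗ[K] (Fin q → K)), IsQuot F E G j P := by
  obtain ⟨G, P, h1, h2, h3⟩ := s_Q K hK n m q E F j hj hn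
  exact ⟨G, P, hj, h1, h2, h3⟩

section

variable {F : Bundle K m} {E : Bundle K n} {G : Bundle K q}
    {j : (Fin m → K) →ₗ[K] (Fin n → K)} {P : (Fin n → K) →ₗ[K] (Fin q → K)}

theorem IsQuot.degree (h : IsQuot F E G j P) (hK : IsCurve K) :
    E.degree = F.degree + G.degree :=
  (degree_exact hK h.sub h.surj (fun s hs => (h.ker s).1 hs)
    (fun x => (h.ker _).2 ⟨x, rfl⟩) (fun v s hs => (h.stalk v _).2 ⟨s, hs, rfl⟩)).2
    (fun v t ht => (h.stalk v t).1 ht)

theorem IsQuot.h0_le (h : IsQuot F E G j P) (hK : IsCurve K) (hg : genus K ≠ 0) :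
    h0 E ≤ h0 F + h0 G :=
  (s_Q2 K hK hg n m q E F j G P h.sub h.surj h.ker h.stalk).1

theorem h0_sub_le (hK : IsCurve K) (hg : genus K ≠ 0) (h : IsSubbundle F E j) : h0 F ≤ h0 E := by
  have := (rr hK hg E).1
  let ψ : F.sections →ₗ[ℂ] E.sections :=
    { toFun := fun s => ⟨j s.1, fun v => (h.stalk v _).1 (s.2 v)⟩
      map_add' := fun s t => Subtype.ext (map_add _ _ _)
      map_smul' := fun c s => Subtype.ext (by
        change j (c • s.1) = c • j s.1
        rw [← algebraMap_smul K c s.1, map_smul, algebraMap_smul]) }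
  exact LinearMap.finrank_le_finrank_of_injective (f := ψ) (fun x y hxy =>
    Subtype.ext (h.injective (congrArg Subtype.val hxy)))

theorem subTrans {l : ℕ} {D : Bundle K l} {i : (Fin l → K) →ₗ[K] (Fin m → K)}
    (h : IsSubbundle F E j) (h' : IsSubbundle D F i) : IsSubbundle D E (j ∘ₗ i) :=
  ⟨by rw [LinearMap.coe_comp]; exact h.injective.comp h'.injective, fun v s => by
    rw [h'.stalk, h.stalk]; rfl⟩

/-- preimages of subbundles of a quotient -/
theorem IsQuot.pre (h : IsQuot F E G j P) (hK : IsCurve K) (hg : genus K ≠ 0) {l : ℕ}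
    {X : Bundle K l} {i : (Fin l → K) →ₗ[K] (Fin q → K)} (hX : IsSubbundle X G i) :
    ∃ (E' : Bundle K (m + l)) (i' : (Fin (m + l) → K) →ₗ[K] (Fin n → K)),
      IsSubbundle E' E i' ∧ E'.degree = F.degree + X.degree ∧ h0 E + h0 X ≤ h0 E' + h0 G ∧
      (∀ x, ∃ y, i' y = j x) := by
  have hrank : Module.finrank K (Submodule.comap P (LinearMap.range i)) = m + l := by
    let φ : Submodule.comap P (LinearMap.range i) →ₗ[K] LinearMap.range i :=
      P.restrict (fun x hx => hx)
    have hφ : Function.Surjective φ := by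
      rintro ⟨y, hy⟩
      obtain ⟨x, hx⟩ := h.surj y
      refine ⟨⟨x, ?_⟩, Subtype.ext hx⟩
      rw [Submodule.mem_comap, hx]
      exact hy
    have h1 := LinearMap.finrank_range_add_finrank_ker φ
    rw [LinearMap.range_eq_top.2 hφ, finrank_top, LinearMap.finrank_range_of_inj hX.injective,
      Module.finrank_fin_fun] at h1
    have h2 : Module.finrank K (LinearMap.ker φ) = m := by
      let e : (Fin m → K) →ₗ[K] LinearMap.ker φ :=
        { toFun := fun x => ⟨⟨j x, by
            rw [Submodule.mem_comap, (h.ker _).2 ⟨x, rfl⟩]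
            exact zero_mem _⟩, by
            rw [LinearMap.mem_ker]
            exact Subtype.ext ((h.ker _).2 ⟨x, rfl⟩)⟩
          map_add' := fun x y => Subtype.ext (Subtype.ext (map_add j x y))
          map_smul' := fun c x => Subtype.ext (Subtype.ext (map_smul j c x)) }
      have he : Function.Bijective e := by
        constructor
        · intro x y hxy
          apply h.sub.injective
          exact congrArg (fun z : LinearMap.ker φ => z.1.1) hxy
        · rintro ⟨⟨x, hx⟩, hx'⟩
          rw [LinearMap.mem_ker] at hx'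
          obtain ⟨y, hy⟩ := (h.ker x).1 (congrArg Subtype.val hx')
          exact ⟨y, Subtype.ext (Subtype.ext hy)⟩
      rw [← (LinearEquiv.ofBijective e he).finrank_eq, Module.finrank_fin_fun]
    omega
  obtain ⟨i', hi', hir⟩ := exists_param _ hrank
  obtain ⟨E', hE'⟩ := exists_sub hK E i' hi'
  have hmem : ∀ x, P (i' x) ∈ LinearMap.range i := by
    intro x
    have : i' x ∈ Submodule.comap P (LinearMap.range i) := by rw [← hir]; exact ⟨x, rfl⟩
    exact this
  let ρ : LinearMap.range i ≃ₗ[K] (Fin l → K) := (LinearEquiv.ofInjective i hX.injective).symm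
  have hρ : ∀ y, i (ρ y) = y.1 := fun y => by
    have := (LinearEquiv.ofInjective i hX.injective).apply_symm_apply y
    exact congrArg Subtype.val this
  let Q : (Fin (m + l) → K) →ₗ[K] (Fin l → K) :=
    ρ.toLinearMap ∘ₗ (LinearMap.codRestrict (LinearMap.range i) (P ∘ₗ i') hmem)
  have hQ : ∀ x, i (Q x) = P (i' x) := fun x => hρ _
  have hji : ∀ x, j x ∈ LinearMap.range i' := by
    intro x
    rw [hir, Submodule.mem_comap, (h.ker _).2 ⟨x, rfl⟩]
    exact zero_mem _
  let σ : LinearMap.range i' ≃ₗ[K] (Fin (m + l) → K) := (LinearEquiv.ofInjective i' hi').symm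
  have hσ : ∀ y, i' (σ y) = y.1 := fun y => by
    have := (LinearEquiv.ofInjective i' hi').apply_symm_apply y
    exact congrArg Subtype.val this
  let k : (Fin m → K) →ₗ[K] (Fin (m + l) → K) :=
    σ.toLinearMap ∘ₗ (LinearMap.codRestrict (LinearMap.range i') j hji)
  have hk : ∀ x, i' (k x) = j x := fun x => hσ _
  have hkF : IsSubbundle F E' k := by
    constructor
    · intro x y hxy
      apply h.sub.injective
      rw [← hk, ← hk, hxy]
    · intro v s
      rw [h.sub.stalk v s, hE'.stalk v, hk]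
  have hQs : Function.Surjective Q := by
    intro y
    obtain ⟨x, hx⟩ := h.surj (i y)
    have h5 : x ∈ LinearMap.range i' := by
      rw [hir, Submodule.mem_comap, hx]
      exact ⟨y, rfl⟩
    obtain ⟨w, hw⟩ := h5
    refine ⟨w, hX.injective ?_⟩
    rw [hQ, hw, hx]
  have hdeg := (degree_exact hK (G := X) hkF hQs (fun s hs => by
      have h6 : P (i' s) = 0 := by rw [← hQ, hs, map_zero]
      obtain ⟨x, hx⟩ := (h.ker _).1 h6
      exact ⟨x, hi' (by rw [hk, hx])⟩)
    (fun x => hX.injective (by rw [hQ, hk, map_zero, (h.ker _).2 ⟨x, rfl⟩]))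
    (fun v s hs => by
      rw [hX.stalk v, hQ]
      exact (h.stalk v _).2 ⟨i' s, (hE'.stalk v s).1 hs, rfl⟩)).2 (fun v t ht => by
      obtain ⟨s, hs, hst⟩ := (h.stalk v _).1 ((hX.stalk v t).1 ht)
      have h5 : s ∈ LinearMap.range i' := by
        rw [hir, Submodule.mem_comap, hst]
        exact ⟨t, rfl⟩
      obtain ⟨w, hw⟩ := h5
      refine ⟨w, (hE'.stalk v w).2 (by rw [hw]; exact hs), hX.injective ?_⟩
      rw [hQ, hw, hst])
  refine ⟨E', i', hE', hdeg, ?_, fun x => ⟨k x, hk x⟩⟩
  -- sections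
  have := (rr hK hg E).1
  have := (rr hK hg E').1
  have := (rr hK hg G).1
  have := (rr hK hg X).1
  let φ : E.sections →ₗ[ℂ] G.sections :=
    { toFun := fun s => ⟨P s.1, fun v => (h.stalk v _).2 ⟨s.1, s.2 v, rfl⟩⟩
      map_add' := fun s t => Subtype.ext (map_add _ _ _)
      map_smul' := fun c s => Subtype.ext (by
        change P (c • s.1) = c • P s.1
        rw [← algebraMap_smul K c s.1, map_smul, algebraMap_smul]) }
  let ψ : X.sections →ₗ[ℂ] G.sections :=
    { toFun := fun s => ⟨i s.1, fun v => (hX.stalk v _).1 (s.2 v)⟩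
      map_add' := fun s t => Subtype.ext (map_add _ _ _)
      map_smul' := fun c s => Subtype.ext (by
        change i (c • s.1) = c • i s.1
        rw [← algebraMap_smul K c s.1, map_smul, algebraMap_smul]) }
  let χ : E'.sections →ₗ[ℂ] E.sections :=
    { toFun := fun s => ⟨i' s.1, fun v => (hE'.stalk v _).1 (s.2 v)⟩
      map_add' := fun s t => Subtype.ext (map_add _ _ _)
      map_smul' := fun c s => Subtype.ext (by
        change i' (c • s.1) = c • i' s.1
        rw [← algebraMap_smul K c s.1, map_smul, algebraMap_smul]) }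
  have hχ : Function.Injective χ := fun x y hxy =>
    Subtype.ext (hi' (congrArg Subtype.val hxy))
  have hψ : Function.Injective ψ := fun x y hxy =>
    Subtype.ext (hX.injective (congrArg Subtype.val hxy))
  -- the range of `χ` is the preimage of the range of `ψ`
  have hrange : LinearMap.range χ = (LinearMap.range ψ).comap φ := by
    ext s
    constructor
    · rintro ⟨x, rfl⟩
      rw [Submodule.mem_comap]
      refine ⟨⟨Q x.1, fun v => ?_⟩, Subtype.ext (hQ x.1)⟩
      rw [hX.stalk v, hQ]
      exact (h.stalk v _).2 ⟨i' x.1, (hE'.stalk v x.1).1 (x.2 v), rfl⟩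
    · intro hs
      rw [Submodule.mem_comap] at hs
      obtain ⟨y, hy⟩ := hs
      have hy' : i y.1 = P s.1 := congrArg Subtype.val hy
      have h5 : s.1 ∈ LinearMap.range i' := by
        rw [hir, Submodule.mem_comap, ← hy']
        exact ⟨_, rfl⟩
      obtain ⟨w, hw⟩ := h5
      exact ⟨⟨w, fun v => (hE'.stalk v w).2 (by rw [hw]; exact s.2 v)⟩, Subtype.ext hw⟩
  have e1 : Module.finrank ℂ (LinearMap.range χ) = h0 E' := LinearMap.finrank_range_of_inj hχ
  have e2 : Module.finrank ℂ (LinearMap.range ψ) = h0 X := LinearMap.finrank_range_of_inj hψ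
  -- dimension of the preimage
  have e3 : Module.finrank ℂ E.sections + Module.finrank ℂ (LinearMap.range ψ) ≤
      Module.finrank ℂ ((LinearMap.range ψ).comap φ) + Module.finrank ℂ G.sections := by
    let Φ : E.sections →ₗ[ℂ] (G.sections ⧸ LinearMap.range ψ) := (LinearMap.range ψ).mkQ ∘ₗ φ
    have h7 := LinearMap.finrank_range_add_finrank_ker Φ
    have h8 : LinearMap.ker Φ = (LinearMap.range ψ).comap φ := by
      rw [LinearMap.ker_comp, Submodule.ker_mkQ]
    have h9 := Submodule.finrank_le (LinearMap.range Φ)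
    have h10 := Submodule.finrank_quotient_add_finrank (LinearMap.range ψ)
    rw [h8] at h7
    omega
  rw [← hrange, e1, e2] at e3
  exact e3

end

end Pool.Agent.TH186
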