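import Pool.Agent.TH186.Api1

/-!
# Twists by points and duals
-/

set_option autoImplicit false

open scoped WithZero Matrix
open Pool.Agent.Helper395.CS hiding genus
open Pool.Agent.Helper395.BC
open Pool.Agent.W518.PC (s_Q s_Q2 dot_transpose)
open Pool.Agent.W525.BNK (mem_det_one det_one_degree)

namespace Pool.Agent.TH186

variable {K : Type} [Field K] [Algebra ℂ K] {n m q : ℕ}

/-! ### twists -/

/-- `E(-p)` -/
noncomputable def tw (E : Bundle K n) (p : Point K) : Bundle K n := btw E (linv (lpt p))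

theorem linv_frame_inv (R : LineBundle K) (v : Point K) :
    (((linv R).frame v : Kˣ) : K)⁻¹ = (R.frame v : K) := by
  change ((((R.frame v)⁻¹ : Kˣ)) : K)⁻¹ = _
  rw [Units.val_inv_eq_inv_val, inv_inv]

theorem mem_tw (E : Bundle K n) (p v : Point K) (s : Fin n → K) :
    s ∈ (tw E p).stalk v ↔ ((lpt p).frame v : K) • s ∈ E.stalk v := by
  rw [tw, mem_btw, linv_frame_inv]

theorem mem_tw_self (E : Bundle K n) (p : Point K) (s : Fin n → K) :
    s ∈ (tw E p).stalk p ↔ (unif p)⁻¹ • s ∈ E.stalk p := by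
  rw [mem_tw, lpt_frame_self]

theorem mem_tw_ne (E : Bundle K n) {p v : Point K} (h : v ≠ p) (s : Fin n → K) :
    s ∈ (tw E p).stalk v ↔ s ∈ E.stalk v := by
  rw [mem_tw, lpt_frame_ne h, Units.val_one, one_smul]

theorem tw_le (E : Bundle K n) (p v : Point K) {s : Fin n → K} (hs : s ∈ (tw E p).stalk v) :
    s ∈ E.stalk v := by
  rcases eq_or_ne v p with rfl | h
  · rw [mem_tw_self] at hs
    have h1 := stalk_smul hs (a := unif v) (val_unif_lt v).le
    rwa [smul_smul, mul_inv_cancel₀ (unif_ne_zero v), one_smul] at h1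
  · rwa [mem_tw_ne E h] at hs

theorem tw_sections_le (E : Bundle K n) (p : Point K) : (tw E p).sections ≤ E.sections :=
  fun _ hs v => tw_le E p v (hs v)

theorem tw_degree (E : Bundle K n) (p : Point K) : (tw E p).degree = E.degree - n := by
  rw [tw, btw_degree, linv_degree, lpt_degree]
  ring

theorem btw_sub {X : Bundle K m} {E : Bundle K n} {j : (Fin m → K) →ₗ[K] (Fin n → K)}
    (h : IsSubbundle X E j) (R : LineBundle K) : IsSubbundle (btw X R) (btw E R) j :=
  ⟨h.injective, fun v s => by rw [mem_btw, mem_btw, h.stalk, map_smul]⟩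

theorem tw_sub {X : Bundle K m} {E : Bundle K n} {j : (Fin m → K) →ₗ[K] (Fin n → K)}
    (h : IsSubbundle X E j) (p : Point K) : IsSubbundle (tw X p) (tw E p) j := btw_sub h _

theorem btw_linv_btw (E : Bundle K n) (R : LineBundle K) (v : Point K) (s : Fin n → K) :
    s ∈ (btw (btw E R) (linv R)).stalk v ↔ s ∈ E.stalk v := by
  rw [mem_btw, mem_btw, linv_frame_inv, smul_smul, inv_mul_cancel₀ (R.frame v).ne_zero, one_smul]

/-- a line (sub)bundle of `E(-p)` is a twist of a subbundle of `E` -/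
theorem sub_of_tw {X : Bundle K m} {E : Bundle K n} {j : (Fin m → K) →ₗ[K] (Fin n → K)}
    {R : LineBundle K} (h : IsSubbundle X (btw E R) j) : IsSubbundle (btw X (linv R)) E j :=
  ⟨h.injective, fun v s => by
    rw [(btw_sub h (linv R)).stalk v s]
    exact btw_linv_btw E R v _⟩

theorem h0_congr {E E' : Bundle K n} (h : ∀ v s, s ∈ E.stalk v ↔ s ∈ E'.stalk v) : h0 E = h0 E' := by
  have : E.sections = E'.sections := by
    ext s
    exact forall_congr' fun v => h v s
  unfold h0
  rw [this]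

theorem h0_mono (hK : IsCurve K) (hg : genus K ≠ 0) {E E' : Bundle K n}
    (h : ∀ v s, s ∈ E.stalk v → s ∈ E'.stalk v) : h0 E ≤ h0 E' := by
  have := (rr hK hg E').1
  exact Submodule.finrank_mono (fun s hs v => h v s (hs v))

theorem h0_tw (hK : IsCurve K) (hg : genus K ≠ 0) (E : Bundle K n) (p : Point K) :
    h0 E ≤ h0 (tw E p) + n := by
  obtain ⟨-, -, h1⟩ := rr hK hg E
  obtain ⟨-, h2', h2⟩ := rr hK hg (tw E p)
  have h3 : dualK hK hg E ≤ dualK hK hg (tw E p) := fun f hf v s hs => hf v s (tw_le E p v hs)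
  have h4 := Submodule.finrank_mono h3
  rw [tw_degree] at h2
  have h5 : (h0 E : ℤ) ≤ h0 (tw E p) + n := by
    unfold h0
    have : (Module.finrank ℂ (dualK hK hg E) : ℤ) ≤ Module.finrank ℂ (dualK hK hg (tw E p)) := by
      exact_mod_cast h4
    linarith
  exact_mod_cast h5

/-! ### duals -/

/-- `K ⊗ E*` -/
noncomputable def dK (hK : IsCurve K) (hg : genus K ≠ 0) (E : Bundle K n) : Bundle K n :=
  btw (bdual E) (can hK hg)

theorem dK_degree (hK : IsCurve K) (hg : genus K ≠ 0) (E : Bundle K n) :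
    (dK hK hg E).degree = n * (2 * (genus K : ℤ) - 2) - E.degree := by
  rw [dK, btw_degree, bdual_degree, can_degree]
  ring

theorem dK_h0 (hK : IsCurve K) (hg : genus K ≠ 0) (E : Bundle K n) :
    (h0 (dK hK hg E) : ℤ) = h0 E - E.degree + n * ((genus K : ℤ) - 1) := by
  obtain ⟨-, -, h1⟩ := rr hK hg E
  rw [Pool.Agent.W358.PC.s_K6 K hK hg n E] at h1
  unfold h0 dK
  linarith

/-- the dual of a quotient bundle is a subbundle -/
theorem IsQuot.dual {F : Bundle K m} {E : Bundle K n} {G : Bundle K q}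
    {j : (Fin m → K) →ₗ[K] (Fin n → K)} {P : (Fin n → K) →ₗ[K] (Fin q → K)}
    (h : IsQuot F E G j P) : ∃ i, IsSubbundle (bdual G) (bdual E) i := by
  obtain ⟨Pm, rfl⟩ : ∃ Pm : Matrix (Fin q) (Fin n) K, P = Pm.mulVecLin :=
    ⟨LinearMap.toMatrix' P, (Matrix.toLin'_toMatrix' P).symm⟩
  refine ⟨Pmᵀ.mulVecLin, ?_, fun v f => ?_⟩
  · intro x y hxy
    rw [← sub_eq_zero]
    rw [← sub_eq_zero, ← map_sub] at hxy
    set z := x - y
    funext k
    obtain ⟨s, hs⟩ := h.surj (Pi.single k 1)
    have h1 := dot_transpose Pm z s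
    rw [Matrix.mulVecLin_apply] at hxy hs
    rw [hxy, hs] at h1
    simpa [Pi.single_apply] using h1.symm
  · rw [mem_bdual, mem_bdual]
    constructor
    · intro hf s hs
      rw [Matrix.mulVecLin_apply, dot_transpose]
      have h1 := hf _ ((h.stalk v _).2 ⟨s, hs, rfl⟩)
      rw [Matrix.mulVecLin_apply] at h1
      simpa only [mul_comm] using h1
    · intro hf t ht
      obtain ⟨s, hs, rfl⟩ := (h.stalk v t).1 ht
      have h1 := hf s hs
      rw [Matrix.mulVecLin_apply, dot_transpose] at h1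
      rw [Matrix.mulVecLin_apply]
      simpa only [mul_comm] using h1

theorem IsQuot.dK {F : Bundle K m} {E : Bundle K n} {G : Bundle K q}
    {j : (Fin m → K) →ₗ[K] (Fin n → K)} {P : (Fin n → K) →ₗ[K] (Fin q → K)}
    (h : IsQuot F E G j P) (hK : IsCurve K) (hg : genus K ≠ 0) :
    ∃ i, IsSubbundle (dK hK hg G) (dK hK hg E) i := by
  obtain ⟨i, hi⟩ := h.dual
  exact ⟨i, btw_sub hi _⟩

/-- a subbundle of the dual bundle is the dual of a quotient -/
theorem quot_of_dual_sub (hK : IsCurve K) {E : Bundle K n} {A : Bundle K q}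
    {jA : (Fin q → K) →ₗ[K] (Fin n → K)} (hA : IsSubbundle A (bdual E) jA) (hn : n = m + q) :
    ∃ (N : Bundle K m) (j : (Fin m → K) →ₗ[K] (Fin n → K)) (P : (Fin n → K) →ₗ[K] (Fin q → K)),
      IsQuot N E (bdual A) j P := by
  obtain ⟨J', rfl⟩ : ∃ J' : Matrix (Fin n) (Fin q) K, jA = J'.mulVecLin :=
    ⟨LinearMap.toMatrix' jA, (Matrix.toLin'_toMatrix' jA).symm⟩
  have hPs := transpose_surjective J' hA.injective
  obtain ⟨N, j, hj, h1, h2⟩ := exists_ker_sub hK E J'ᵀ.mulVecLin hPs hn
  refine ⟨N, j, J'ᵀ.mulVecLin, hj, hPs, fun s => ⟨h1 s, ?_⟩, fun v t => ?_⟩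
  · rintro ⟨x, rfl⟩
    exact h2 x
  · constructor
    · intro ht
      obtain ⟨R, hR1, hR2⟩ := exists_retraction hA v
      obtain ⟨M, rfl⟩ : ∃ M : Matrix (Fin q) (Fin n) K, R = M.mulVecLin :=
        ⟨LinearMap.toMatrix' R, (Matrix.toLin'_toMatrix' R).symm⟩
      refine ⟨Mᵀ *ᵥ t, ?_, ?_⟩
      · rw [← mem_bdual_bdual, mem_bdual]
        intro f hf
        rw [dot_transpose]
        have h2 := (mem_bdual A v t).1 ht _ (hR2 f hf)
        rw [Matrix.mulVecLin_apply] at h2
        have h3 : ∑ i, (M *ᵥ f) i * t i = ∑ i, t i * (M *ᵥ f) i :=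
          Finset.sum_congr rfl fun _ _ => mul_comm _ _
        rw [h3]
        exact h2
      · have hMJ : M * J' = 1 := by
          ext a b
          have := congrFun (hR1 (Pi.single b 1)) a
          simp only [Matrix.mulVecLin_apply, Matrix.mulVec_mulVec] at this
          rw [Matrix.mulVec_single_one] at this
          rw [Matrix.one_apply]
          simpa [Pi.single_apply, Matrix.col] using this
        rw [Matrix.mulVecLin_apply, Matrix.mulVec_mulVec, ← Matrix.transpose_mul, hMJ,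
          Matrix.transpose_one, Matrix.one_mulVec]
    · rintro ⟨s, hs, rfl⟩
      rw [mem_bdual]
      intro y hy
      rw [Matrix.mulVecLin_apply, dot_transpose]
      exact (mem_bdual E v _).1 ((hA.stalk v y).1 hy) s hs

/-- a subbundle `A` of `K ⊗ E*` gives an exact sequence `0 → N → E → K ⊗ A* → 0` -/
theorem quot_of_dK_sub (hK : IsCurve K) (hg : genus K ≠ 0) {E : Bundle K n} {A : Bundle K q}
    {jA : (Fin q → K) →ₗ[K] (Fin n → K)} (hA : IsSubbundle A (dK hK hg E) jA) (hn : n = m + q) :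
    ∃ (N : Bundle K m) (B : Bundle K q) (j : (Fin m → K) →ₗ[K] (Fin n → K))
      (P : (Fin n → K) →ₗ[K] (Fin q → K)), IsQuot N E B j P ∧
      B.degree = q * (2 * (genus K : ℤ) - 2) - A.degree ∧
      (h0 B : ℤ) = h0 A - A.degree + q * ((genus K : ℤ) - 1) := by
  have h1 : IsSubbundle (btw A (linv (can hK hg))) (bdual E) jA := sub_of_tw hA
  obtain ⟨N, j, P, h⟩ := quot_of_dual_sub (m := m) hK h1 hn
  refine ⟨N, _, j, P, h, ?_, ?_⟩
  · rw [bdual_degree, btw_degree, linv_degree, can_degree]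
    ring
  · rw [← dK_h0 hK hg A]
    congr 1
    apply h0_congr
    intro v s
    rw [dK, mem_btw, mem_bdual, mem_bdual]
    constructor
    · intro hs t ht
      have h2 : ((can hK hg).frame v : K)⁻¹ • t ∈ (btw A (linv (can hK hg))).stalk v := by
        rw [mem_btw, linv_frame_inv, smul_smul, mul_inv_cancel₀ (Units.ne_zero _), one_smul]
        exact ht
      have h3 := hs _ h2
      convert h3 using 2
      exact Finset.sum_congr rfl fun i _ => by
        rw [Pi.smul_apply, Pi.smul_apply, smul_eq_mul, smul_eq_mul]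
        ring
    · intro hs t ht
      rw [mem_btw, linv_frame_inv] at ht
      have h3 := hs _ ht
      convert h3 using 2
      refine Finset.sum_congr rfl fun i _ => ?_
      rw [Pi.smul_apply, Pi.smul_apply, smul_eq_mul, smul_eq_mul]
      have := (Units.ne_zero ((can hK hg).frame v))
      field_simp

end Pool.Agent.TH186
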