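import Pool.Agent.TH186.Api2

/-!
# Sections, determinants and subbundles generated by sections
-/

set_option autoImplicit false

open scoped WithZero Matrix
open Pool.Agent.Helper395.CS hiding genus
open Pool.Agent.Helper395.BC
open Pool.Agent.W518.PC (s_Q s_Q2 dot_transpose)
open Pool.Agent.W525.BNK (mem_det_one det_one_degree)

namespace Pool.Agent.TH186

variable {K : Type} [Field K] [Algebra ℂ K] {n m q : ℕ}

/-- the coordinate matrix of a family of vectors with respect to the frame at `v` -/
theorem rows_frame (E : Bundle K n) (v : Point K) (s : Fin n → Fin n → K) :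
    (Matrix.of fun i => (E.frame v)⁻¹.1 *ᵥ s i) = Matrix.of s * ((E.frame v)⁻¹.1)ᵀ := by
  ext i j
  rw [Matrix.mul_apply, Matrix.of_apply, Matrix.mulVec, dotProduct]
  exact Finset.sum_congr rfl fun k _ => by rw [Matrix.transpose_apply, Matrix.of_apply, mul_comm]

theorem det_rows_frame (E : Bundle K n) (v : Point K) (s : Fin n → Fin n → K) :
    (Matrix.of fun i => (E.frame v)⁻¹.1 *ᵥ s i).det =
      (Matrix.of s).det * ((E.det.frame v : Kˣ) : K)⁻¹ := by
  rw [rows_frame, Matrix.det_mul, Matrix.det_transpose, gl_inv_det]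
  rfl

theorem det_mem_stalk (E : Bundle K n) (v : Point K) {s : Fin n → Fin n → K}
    (hs : ∀ i, s i ∈ E.stalk v) : (Matrix.of s).det ∈ E.det.stalk v := by
  have h1 : v.RegM (Matrix.of fun i => (E.frame v)⁻¹.1 *ᵥ s i) := fun i j => hs i j
  have h2 := v.val_det_le_one _ h1
  rw [det_rows_frame, map_mul, map_inv₀, ← div_eq_mul_inv, div_le_one₀ (frame_pos E.det v)] at h2
  exact h2

theorem det_mem_H0 (E : Bundle K n) {s : Fin n → Fin n → K}
    (hs : ∀ i, s i ∈ E.sections) : (Matrix.of s).det ∈ H0 E.det :=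
  fun v => det_mem_stalk E v fun i => hs i v

/-- sections of the subbundle with a given generic fibre -/
theorem le_h0_of_range (hK : IsCurve K) (hg : genus K ≠ 0) {X : Bundle K m} {E : Bundle K n}
    {i : (Fin m → K) →ₗ[K] (Fin n → K)} (hX : IsSubbundle X E i) (S : Submodule ℂ (Fin n → K))
    (hS : S ≤ E.sections) (hr : ∀ s ∈ S, s ∈ LinearMap.range i) : Module.finrank ℂ S ≤ h0 X := by
  have := (rr hK hg X).1
  have hle : S ≤ X.sections.map (i.restrictScalars ℂ) := by
    intro s hs
    obtain ⟨x, hx⟩ := hr s hs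
    exact ⟨x, fun v => (hX.stalk v x).2 (by rw [hx]; exact hS hs v), hx⟩
  have h1 := Submodule.finrank_mono hle
  have h2 := Submodule.finrank_map_le (i.restrictScalars ℂ) X.sections
  exact h1.trans h2

/-- no line subbundle with two sections -/
def NoLine (E : Bundle K n) : Prop :=
  ∀ (X : Bundle K 1) (i : (Fin 1 → K) →ₗ[K] (Fin n → K)), IsSubbundle X E i → h0 X ≤ 1

/-- no subbundle of rank two with three sections -/
def NoPlane (E : Bundle K n) : Prop :=
  ∀ (X : Bundle K 2) (i : (Fin 2 → K) →ₗ[K] (Fin n → K)), IsSubbundle X E i → h0 X ≤ 2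

theorem NoLine.sub {F : Bundle K m} {E : Bundle K n} {j : (Fin m → K) →ₗ[K] (Fin n → K)}
    (h : NoLine E) (hj : IsSubbundle F E j) : NoLine F :=
  fun X _ hX => h X _ (subTrans hj hX)

theorem NoLine.tw (hK : IsCurve K) (hg : genus K ≠ 0) {E : Bundle K n} (h : NoLine E)
    (p : Point K) : NoLine (tw E p) := by
  intro X i hX
  have h1 := h _ i (sub_of_tw hX)
  refine le_trans ?_ h1
  apply h0_mono hK hg
  intro v s hs
  rw [(sub_of_tw hX).stalk v s]
  exact tw_le E p v ((hX.stalk v s).1 hs)

/-- If `k` sections of `E`, linearly independent over `ℂ`, lie in a `K`-subspace of dimension `r`,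
there is a subbundle of rank `r` with at least `k` sections. -/
theorem exists_sub_of_subspace (hK : IsCurve K) (hg : genus K ≠ 0) (E : Bundle K n)
    (U : Submodule K (Fin n → K)) {r : ℕ} (hr : Module.finrank K U = r)
    (S : Submodule ℂ (Fin n → K)) (hS : S ≤ E.sections) (hU : ∀ s ∈ S, s ∈ U) :
    ∃ (X : Bundle K r) (i : (Fin r → K) →ₗ[K] (Fin n → K)), IsSubbundle X E i ∧
      LinearMap.range i = U ∧ Module.finrank ℂ S ≤ h0 X := by
  obtain ⟨i, hi, hr'⟩ := exists_param U hr
  obtain ⟨X, hX⟩ := exists_sub hK E i hi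
  exact ⟨X, i, hX, hr', le_h0_of_range hK hg hX S hS fun s hs => by rw [hr']; exact hU s hs⟩

/-- dependent over `K` -/
theorem span_lt_of_det {s : Fin n → Fin n → K} (h : (Matrix.of s).det = 0) :
    Module.finrank K (Submodule.span K (Set.range s)) < n := by
  by_contra hcon
  rw [not_lt] at hcon
  have h1 : Module.finrank K (Submodule.span K (Set.range s)) = n :=
    le_antisymm ((finrank_range_le_card s).trans (by simp)) hcon
  have h2 : LinearIndependent K s := by
    rw [linearIndependent_iff_card_eq_finrank_span, Set.finrank, h1, Fintype.card_fin]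
  have h3 := (Matrix.linearIndependent_rows_iff_isUnit (A := Matrix.of s)).1 h2
  rw [Matrix.isUnit_iff_isUnit_det, h] at h3
  exact not_isUnit_zero h3

theorem det_ne_zero_two (hK : IsCurve K) (hg : genus K ≠ 0) {G : Bundle K 2} (h : NoLine G)
    (s : Fin 2 → Fin 2 → K) (hs : ∀ i, s i ∈ G.sections) (hli : LinearIndependent ℂ s) :
    (Matrix.of s).det ≠ 0 := by
  intro h0'
  have h1 := span_lt_of_det h0'
  set U := Submodule.span K (Set.range s) with hU
  set S := Submodule.span ℂ (Set.range s) with hSdef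
  have hS : S ≤ G.sections := Submodule.span_le.2 (by rintro _ ⟨i, rfl⟩; exact hs i)
  have hSU : ∀ x ∈ S, x ∈ U := by
    intro x hx
    have : S ≤ U.restrictScalars ℂ := Submodule.span_le.2 (by
      rintro _ ⟨i, rfl⟩
      exact Submodule.subset_span ⟨i, rfl⟩)
    exact this hx
  have h2 : Module.finrank ℂ S = 2 := by
    rw [hSdef, finrank_span_eq_card hli, Fintype.card_fin]
  have hr : Module.finrank K U = 1 := by
    have h3 : Module.finrank K U ≠ 0 := by
      intro h4
      rw [Submodule.finrank_eq_zero] at h4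
      have h5 : s 0 ∈ U := Submodule.subset_span ⟨0, rfl⟩
      rw [h4, Submodule.mem_bot] at h5
      exact hli.ne_zero 0 h5
    omega
  obtain ⟨X, i, hX, -, h4⟩ := exists_sub_of_subspace hK hg G U hr S hS hSU
  have := h X i hX
  omega

theorem det_ne_zero_three (hK : IsCurve K) (hg : genus K ≠ 0) {G : Bundle K 3} (h : NoLine G)
    (h' : NoPlane G) (s : Fin 3 → Fin 3 → K) (hs : ∀ i, s i ∈ G.sections)
    (hli : LinearIndependent ℂ s) : (Matrix.of s).det ≠ 0 := by
  intro h0'
  have h1 := span_lt_of_det h0'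
  set U := Submodule.span K (Set.range s) with hU
  set S := Submodule.span ℂ (Set.range s) with hSdef
  have hS : S ≤ G.sections := Submodule.span_le.2 (by rintro _ ⟨i, rfl⟩; exact hs i)
  have hSU : ∀ x ∈ S, x ∈ U := by
    intro x hx
    have : S ≤ U.restrictScalars ℂ := Submodule.span_le.2 (by
      rintro _ ⟨i, rfl⟩
      exact Submodule.subset_span ⟨i, rfl⟩)
    exact this hx
  have h2 : Module.finrank ℂ S = 3 := by
    rw [hSdef, finrank_span_eq_card hli, Fintype.card_fin]
  have h3 : Module.finrank K U ≠ 0 := by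
    intro h4
    rw [Submodule.finrank_eq_zero] at h4
    have h5 : s 0 ∈ U := Submodule.subset_span ⟨0, rfl⟩
    rw [h4, Submodule.mem_bot] at h5
    exact hli.ne_zero 0 h5
  have hr : Module.finrank K U = 1 ∨ Module.finrank K U = 2 := by omega
  rcases hr with hr | hr
  · obtain ⟨X, i, hX, -, h4⟩ := exists_sub_of_subspace hK hg G U hr S hS hSU
    have := h X i hX
    omega
  · obtain ⟨X, i, hX, -, h4⟩ := exists_sub_of_subspace hK hg G U hr S hS hSU
    have := h' X i hX
    omega

/-- the line subbundle generated by a section -/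
theorem exists_line_of_section (hK : IsCurve K) (hg : genus K ≠ 0) {E : Bundle K n}
    {u : Fin n → K} (hu0 : u ≠ 0) :
    ∃ (X : Bundle K 1) (i : (Fin 1 → K) →ₗ[K] (Fin n → K)) (x : Fin 1 → K),
      IsSubbundle X E i ∧ i x = u ∧ x ≠ 0 := by
  have hr : Module.finrank K (Submodule.span K {u}) = 1 := finrank_span_singleton hu0
  obtain ⟨i, hi, hr'⟩ := exists_param _ hr
  obtain ⟨X, hX⟩ := exists_sub hK E i hi
  have h1 : u ∈ LinearMap.range i := by rw [hr']; exact Submodule.mem_span_singleton_self u
  obtain ⟨x, hx⟩ := h1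
  refine ⟨X, i, x, hX, hx, ?_⟩
  rintro rfl
  rw [map_zero] at hx
  exact hu0 hx.symm

/-- a line bundle with a non-zero section has degree `≥ 0` -/
theorem degree_nonneg_one (hK : IsCurve K) {X : Bundle K 1} {x : Fin 1 → K} (hx : x ∈ X.sections)
    (hx0 : x ≠ 0) : 0 ≤ X.degree := by
  have h1 : x 0 ∈ H0 X.det := fun v => (mem_det_one X v x).1 (hx v)
  have h2 : x 0 ≠ 0 := by
    intro h
    apply hx0
    funext i
    rw [Subsingleton.elim i 0, h]
    rfl
  have h3 := degree_nonneg_of_section hK h1 h2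
  rwa [det_one_degree] at h3

/-- the line subbundle generated by a section that vanishes at `p` and `q` -/
theorem exists_line_two (hK : IsCurve K) (hg : genus K ≠ 0) {E : Bundle K n} {p q : Point K}
    {u : Fin n → K} (hu0 : u ≠ 0) (hu : u ∈ (tw (tw E p) q).sections) :
    ∃ (X : Bundle K 1) (i : (Fin 1 → K) →ₗ[K] (Fin n → K)) (x : Fin 1 → K),
      IsSubbundle X E i ∧ i x = u ∧ 2 ≤ X.degree := by
  obtain ⟨X, i, x, hX, hx, hx0⟩ := exists_line_of_section hK hg (E := E) hu0
  have h1 : x ∈ (tw (tw X p) q).sections := fun v => by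
    rw [(tw_sub (tw_sub hX p) q).stalk, hx]
    exact hu v
  have h2 := degree_nonneg_one hK h1 hx0
  rw [tw_degree, tw_degree] at h2
  exact ⟨X, i, x, hX, hx, by push_cast at h2; omega⟩

/-- a bundle of positive degree with generically independent sections: some combination of the
sections vanishes at a point -/
theorem exists_vanishing_comb (hK : IsCurve K) {E : Bundle K n} (hdeg : 0 < E.degree)
    {s : Fin n → Fin n → K} (hs : ∀ i, s i ∈ E.sections) (hdet : (Matrix.of s).det ≠ 0) :
    ∃ (q : Point K) (c : Fin n → ℂ), c ≠ 0 ∧ ∑ i, c i • s i ∈ (tw E q).sections := by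
  -- a zero of the determinant
  obtain ⟨q, hq⟩ : ∃ q : Point K, q.val (Matrix.of s).det < q.val (E.det.frame q : K) := by
    by_contra hcon
    push Not at hcon
    have h1 := det_mem_H0 E hs
    have h2 := ldegree_le hK (L := E.det) (M := lprin hK (Units.mk0 _ hdet)) (fun v t ht => by
      change v.val t ≤ v.val (Matrix.of s).det
      exact le_trans ht (hcon v))
    rw [lprin_degree] at h2
    change E.degree ≤ 0 at h2
    omega
  set M : Matrix (Fin n) (Fin n) K := Matrix.of fun i => (E.frame q)⁻¹.1 *ᵥ s i with hM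
  have hreg : q.RegM M := fun i j => hs i q j
  have hdetM : q.val M.det < 1 := by
    rw [hM, det_rows_frame, map_mul, map_inv₀, ← div_eq_mul_inv, div_lt_one₀ (frame_pos E.det q)]
    exact hq
  obtain ⟨c, hc0, hc⟩ := exists_singular hK q M hreg hdetM
  refine ⟨q, c, hc0, fun v => ?_⟩
  have hsum : ∑ i, c i • s i ∈ E.sections :=
    Submodule.sum_mem _ fun i _ => Submodule.smul_mem _ _ (hs i)
  rcases eq_or_ne v q with rfl | hv
  · rw [mem_tw_self, mem_stalk_iff]
    intro j
    rw [Matrix.mulVec_smul, Pi.smul_apply, smul_eq_mul, map_mul, map_inv₀,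
      inv_mul_le_iff₀ (zero_lt_iff.2 (v.val_ne_zero (unif_ne_zero v))), mul_one, ← val_lt_one_iff]
    have h1 : v.Reg (Pi.single j 1 : Fin n → K) := by
      intro i
      rcases eq_or_ne i j with rfl | hi
      · rw [Pi.single_eq_same, map_one]
      · rw [Pi.single_eq_of_ne hi]; simp
    have h2 := hc _ h1
    have h3 : ((E.frame v)⁻¹.1 *ᵥ ∑ i, c i • s i) j =
        ∑ l, algebraMap ℂ K (c l) * (M *ᵥ Pi.single j 1) l := by
      rw [Matrix.mulVec_sum, Finset.sum_apply]
      refine Finset.sum_congr rfl fun l _ => ?_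
      rw [Matrix.mulVec_single_one]
      have h4 : c l • s l = (algebraMap ℂ K (c l)) • s l := (algebraMap_smul K (c l) (s l)).symm
      rw [h4, Matrix.mulVec_smul, Pi.smul_apply, smul_eq_mul]
      rfl
    rw [h3]
    exact h2
  · rw [mem_tw_ne E hv]
    exact hsum v

end Pool.Agent.TH186
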