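import Pool.Agent.TH186.Rank3
import Pool.Agent.W518.PC.Stmts

/-!
# From the Clifford index to the line bundles
-/

set_option autoImplicit false

open scoped WithZero Matrix
open Pool.Agent.Helper395.CS hiding genus
open Pool.Agent.Helper395.BC
open Pool.Agent.W525.BNK (mem_det_one det_one_degree)
open Pool.Agent.W525.BA (h0_scale)

namespace Pool.Agent.TH186

variable {K : Type} [Field K] [Algebra ℂ K] {n : ℕ}

theorem lsum_h0 (L : LineBundle K) : h0 (lsum L 1) = l0 L :=
  ((secEquiv L 1).trans (LinearEquiv.funUnique (Fin 1) ℂ (H0 L))).finrank_eq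

/-- a bundle of rank one is semistable -/
theorem semistable_one (hK : IsCurve K) (E : Bundle K 1) : IsSemistable E := by
  intro m F j hm hj
  have h1 : m ≤ 1 := Pool.Agent.H294R3.CohSys.sub_rank_le hj
  obtain rfl : m = 1 := by omega
  have h2 := Pool.Agent.H294R3.CohSys.sub_full_degree hK hj
  rw [h2]

theorem gam_one_ge {γ : ℚ} (hK : IsCurve K) (h : IsCliff K 1 γ) (L : LineBundle K)
    (h2 : 2 ≤ l0 L) (hd : L.degree ≤ (genus K : ℤ) - 1) :
    γ ≤ (L.degree : ℚ) - 2 * ((l0 L : ℚ) - 1) := by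
  have h1 : Contributes (lsum L 1) := by
    refine ⟨semistable_one hK _, ?_, ?_⟩
    · have := lsum_h0 L
      unfold h0 at this
      rw [this]
      simpa using h2
    · rw [lsum_degree]
      push_cast
      rw [div_one, one_mul]
      exact_mod_cast hd
  have h3 := h.2 ⟨lsum L 1, h1, rfl⟩
  unfold gam at h3
  have h4 := lsum_h0 L
  unfold h0 at h4
  rw [h4, lsum_degree] at h3
  push_cast at h3
  rw [div_one, one_mul] at h3
  exact h3

/-- the consequences of `Cliff_1(C) = 3` for line bundles -/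
theorem lb_of_cliff (hK : IsCurve K) (hg : genus K ≠ 0) (h : IsCliff K 1 3) : LB K := by
  intro L
  obtain ⟨-, h1⟩ := rrL hK hg L
  set b := Module.finrank ℂ (H0 L) with hb
  set c := Module.finrank ℂ (H0 (lmul (can hK hg) (linv L))) with hc
  by_cases h2 : b ≤ 1
  · exact Or.inl h2
  by_cases h3 : c ≤ 1
  · exact Or.inr (Or.inr (by omega))
  refine Or.inr (Or.inl ?_)
  rcases le_or_gt L.degree ((genus K : ℤ) - 1) with h4 | h4
  · have h5 := gam_one_ge hK h L (by change 2 ≤ b; omega) h4
    change (3 : ℚ) ≤ (L.degree : ℚ) - 2 * ((b : ℚ) - 1) at h5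
    have h6 : ((2 * (b : ℤ) + 1 : ℤ) : ℚ) ≤ (L.degree : ℚ) := by
      push_cast
      linarith
    exact_mod_cast h6
  · have hdeg : (lmul (can hK hg) (linv L)).degree = 2 * (genus K : ℤ) - 2 - L.degree := by
      rw [lmul_degree, linv_degree, can_degree]
      ring
    have h5 := gam_one_ge hK h (lmul (can hK hg) (linv L)) (by change 2 ≤ c; omega) (by omega)
    change (3 : ℚ) ≤ ((lmul (can hK hg) (linv L)).degree : ℚ) - 2 * ((c : ℚ) - 1) at h5
    have h6 : ((2 * (c : ℤ) + 1 : ℤ) : ℚ) ≤ ((lmul (can hK hg) (linv L)).degree : ℚ) := by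
      push_cast
      linarith
    have h7 : 2 * (c : ℤ) + 1 ≤ (lmul (can hK hg) (linv L)).degree := by exact_mod_cast h6
    omega

/-- the bundles of rank three with `γ(E) ≤ 8/3` -/
theorem hyp3_of_contributes {E : Bundle K 3} (hE : Contributes E) (hγ : gam E ≤ 8 / 3) :
    Hyp3 E := by
  have h1 : ((E.degree : ℚ) - 2 * ((Module.finrank ℂ E.sections : ℚ) - (3 : ℕ))) / (3 : ℕ) ≤ 8 / 3 :=
    hγ
  refine ⟨fun X i hX => ?_, fun X i hX => ?_, hE.sections, ?_, ?_⟩
  · have h2 := hE.semistable 1 X i (by norm_num) hX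
    push_cast at h2
    have h3 : ((3 * X.degree : ℤ) : ℚ) ≤ (E.degree : ℚ) := by
      push_cast
      linarith
    exact_mod_cast h3
  · have h2 := hE.semistable 2 X i (by norm_num) hX
    push_cast at h2
    have h3 : ((3 * X.degree : ℤ) : ℚ) ≤ ((2 * E.degree : ℤ) : ℚ) := by
      push_cast
      linarith
    exact_mod_cast h3
  · have h2 := hE.slope
    push_cast at h2
    have h3 : (E.degree : ℚ) ≤ ((3 * ((genus K : ℤ) - 1) : ℤ) : ℚ) := by
      push_cast
      linarith
    exact_mod_cast h3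
  · push_cast at h1
    have h3 : (E.degree : ℚ) ≤ ((2 * (h0 E : ℤ) + 2 : ℤ) : ℚ) := by
      push_cast
      unfold h0
      linarith
    exact_mod_cast h3

end Pool.Agent.TH186
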