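import Pool.Agent.Helper395.BC.Pencil

/-!
# Curves with Clifford index 3 and the rank-3 Clifford index: definitions (MP_3b64ec_ag)

Curves and vector bundles are described as in `Pool/Agent/Helper395/CS/Defs.lean` and
`Pool/Agent/Helper395/BC/Defs.lean`.
-/

set_option autoImplicit false

open scoped WithZero Matrix
open Pool.Agent.Helper395.CS hiding genus
open Pool.Agent.Helper395.BC

namespace Pool.Agent.TH186

section

variable {K : Type} [Field K] [Algebra ℂ K] {n : ℕ}

/-- `γ(E) = (d - 2 (h⁰(E) - n)) / n` for a bundle of rank `n` and degree `d` -/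
noncomputable def gam (E : Bundle K n) : ℚ :=
  ((E.degree : ℚ) - 2 * ((Module.finrank ℂ E.sections : ℚ) - n)) / n

/-- The bundles in the definition of `Cliff_n(C)`: semistable of rank `n` with `h⁰(E) ≥ 2 n` and
`μ(E) ≤ g - 1`. -/
structure Contributes (E : Bundle K n) : Prop where
  semistable : IsSemistable E
  sections : 2 * n ≤ Module.finrank ℂ E.sections
  slope : (E.degree : ℚ) / n ≤ (genus K : ℚ) - 1

end

/-- `Cliff_n(C) = γ`: `γ` is the minimum of the `γ(E)`, `E` semistable of rank `n` with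
`h⁰(E) ≥ 2 n` and `μ(E) ≤ g - 1`. -/
def IsCliff (K : Type) [Field K] [Algebra ℂ K] (n : ℕ) (γ : ℚ) : Prop :=
  IsLeast {x : ℚ | ∃ E : Bundle K n, Contributes E ∧ x = gam E} γ

/-- The consequences of `Cliff_1(C) ≥ 3` for the line bundles `L` on `C`: `h⁰(L) ≤ 1` or
`deg L ≥ 2 h⁰(L) + 1` or `h¹(L) ≤ 1`. -/
def LB (K : Type) [Field K] [Algebra ℂ K] : Prop :=
  ∀ L : LineBundle K, Module.finrank ℂ (H0 L) ≤ 1 ∨
    2 * (Module.finrank ℂ (H0 L) : ℤ) + 1 ≤ L.degree ∨
    (Module.finrank ℂ (H0 L) : ℤ) + genus K ≤ L.degree + 2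

end Pool.Agent.TH186
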