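import Pool.Agent.TH186.Api3

/-!
# The determinant of an extension by a line bundle
-/

set_option autoImplicit false

open scoped WithZero Matrix
open Pool.Agent.Helper395.CS hiding genus
open Pool.Agent.Helper395.BC
open Pool.Agent.W525.BNK (mem_det_one det_one_degree)
open Pool.Agent.W525.BA (h0_scale h0_lsub)

namespace Pool.Agent.TH186

variable {K : Type} [Field K] [Algebra ℂ K] {n m q : ℕ}

theorem one_coord {j : (Fin 1 → K) →ₗ[K] (Fin n → K)} (x : Fin 1 → K) :
    j x = x 0 • j (fun _ => 1) := by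
  rw [← map_smul]
  congr 1
  funext i
  rw [Subsingleton.elim i 0, Pi.smul_apply, smul_eq_mul, mul_one]

theorem det_quot {j : (Fin 1 → K) →ₗ[K] (Fin 3 → K)} {P : (Fin 3 → K) →ₗ[K] (Fin 2 → K)}
    (hker : ∀ s, P s = 0 ↔ s ∈ LinearMap.range j) {s1 s2 : Fin 3 → K} (hs1 : P s1 = ![1, 0])
    (hs2 : P s2 = ![0, 1]) (x : K) (y1 y2 : Fin 3 → K) :
    (Matrix.of ![x • j (fun _ => 1), y1, y2]).det =
      x * (Matrix.of ![j (fun _ => 1), s1, s2]).det * (Matrix.of ![P y1, P y2]).det := by
  have h1 : ∀ y : Fin 3 → K, ∃ r : K, y = (P y 0) • s1 + (P y 1) • s2 + r • j (fun _ => 1) := by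
    intro y
    have h2 : P (y - (P y 0) • s1 - (P y 1) • s2) = 0 := by
      rw [map_sub, map_sub, map_smul, map_smul, hs1, hs2]
      funext i
      fin_cases i
      · change P y 0 - P y 0 * 1 - P y 1 * 0 = 0
        ring
      · change P y 1 - P y 0 * 0 - P y 1 * 1 = 0
        ring
    obtain ⟨z, hz⟩ := (hker _).1 h2
    refine ⟨z 0, ?_⟩
    rw [← one_coord, hz]
    abel
  obtain ⟨r1, h1'⟩ := h1 y1
  obtain ⟨r2, h2'⟩ := h1 y2
  set t := j (fun _ => 1)
  set a1 := P y1 0
  set b1 := P y1 1
  set a2 := P y2 0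
  set b2 := P y2 1
  have e1 : (Matrix.of ![P y1, P y2]).det = a1 * b2 - b1 * a2 := by
    rw [Matrix.det_fin_two]
    rfl
  rw [e1, h1', h2', Matrix.det_fin_three, Matrix.det_fin_three]
  simp only [Matrix.of_apply, Matrix.cons_val_zero, Matrix.cons_val_one, Matrix.cons_val_two,
    Matrix.head_cons, Matrix.tail_cons, Pi.add_apply, Pi.smul_apply, smul_eq_mul, Matrix.cons_val]
  ring

theorem det_exact_one (hK : IsCurve K) {X : Bundle K 1} {E : Bundle K 3} {F : Bundle K 2}
    {j : (Fin 1 → K) →ₗ[K] (Fin 3 → K)} {P : (Fin 3 → K) →ₗ[K] (Fin 2 → K)}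
    (h : IsQuot X E F j P) : ∃ κ : Kˣ, ∀ v : Point K, v.val (E.det.frame v : K) =
      v.val (κ : K) * (v.val (X.det.frame v : K) * v.val (F.det.frame v : K)) := by
  obtain ⟨s1, hs1⟩ := h.surj ![1, 0]
  obtain ⟨s2, hs2⟩ := h.surj ![0, 1]
  have ht : P (j (fun _ => 1)) = 0 := (h.ker _).2 ⟨_, rfl⟩
  set κ := (Matrix.of ![j (fun _ => 1), s1, s2]).det with hκ
  have hne : κ ≠ 0 := by
    intro h0
    obtain ⟨c, hc0, hc⟩ := Matrix.exists_vecMul_eq_zero_iff.2 h0
    have h1 : c 0 • j (fun _ => 1) + c 1 • s1 + c 2 • s2 = 0 := by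
      rw [← hc]
      funext i
      simp [Matrix.vecMul, dotProduct, Fin.sum_univ_three]
    have h2 := congrArg P h1
    rw [map_add, map_add, map_smul, map_smul, map_smul, ht, hs1, hs2, map_zero] at h2
    have h3 : c 1 = 0 := by simpa using congrFun h2 0
    have h4 : c 2 = 0 := by simpa using congrFun h2 1
    rw [h3, h4, zero_smul, zero_smul, add_zero, add_zero, ← one_coord (j := j) (fun _ => c 0)] at h1
    have h5 : (fun _ : Fin 1 => c 0) = 0 := h.sub.injective (by rw [h1, map_zero])
    apply hc0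
    funext i
    fin_cases i
    · exact congrFun h5 0
    · exact h3
    · exact h4
  refine ⟨Units.mk0 κ hne, ?_⟩
  set R : LineBundle K := lmul (lprin hK (Units.mk0 κ hne)) (lmul X.det F.det) with hR
  have hRv : ∀ v : Point K, v.val (R.frame v : K) =
      v.val κ * (v.val (X.det.frame v : K) * v.val (F.det.frame v : K)) := by
    intro v
    change v.val (((Units.mk0 κ hne) * (X.det.frame v * F.det.frame v) : Kˣ) : K) = _
    rw [Units.val_mul, Units.val_mul, Units.val_mk0, map_mul, map_mul]
  have hle : ∀ v : Point K, v.val (R.frame v : K) ≤ v.val (E.det.frame v : K) := by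
    intro v
    rw [hRv]
    have hz : ∀ k : Fin 2, (F.frame v).1 *ᵥ (Pi.single k 1) ∈ F.stalk v := fun k =>
      frame_mulVec_mem F v fun l => by
        rcases eq_or_ne l k with rfl | hl
        · rw [Pi.single_eq_same, map_one]
        · rw [Pi.single_eq_of_ne hl]; simp
    obtain ⟨y1, hy1, hy1'⟩ := (h.stalk v _).1 (hz 0)
    obtain ⟨y2, hy2, hy2'⟩ := (h.stalk v _).1 (hz 1)
    have hx : (X.det.frame v : K) • j (fun _ => 1) ∈ E.stalk v := by
      have h1 := (h.sub.stalk v (fun _ => (X.det.frame v : K))).1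
        ((mem_det_one X v _).2 (le_refl (v.val (X.det.frame v : K))))
      rwa [one_coord] at h1
    have h2 := det_mem_stalk E v (s := ![(X.det.frame v : K) • j (fun _ => 1), y1, y2]) (by
      intro i
      fin_cases i
      · exact hx
      · exact hy1
      · exact hy2)
    rw [det_quot h.ker hs1 hs2, hy1', hy2'] at h2
    have h3 : (Matrix.of ![(F.frame v).1 *ᵥ (Pi.single 0 1), (F.frame v).1 *ᵥ (Pi.single 1 1)]).det =
        (F.det.frame v : K) := by
      change _ = (F.frame v).1.det
      have h5 : ∀ k l : Fin 2, ((F.frame v).1 *ᵥ (Pi.single k 1)) l = (F.frame v).1 l k := by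
        intro k l
        rw [Matrix.mulVec_single_one]
        rfl
      rw [Matrix.det_fin_two, Matrix.det_fin_two]
      simp only [Matrix.of_apply, Matrix.cons_val_zero, Matrix.cons_val_one, h5]
      ring
    rw [h3] at h2
    have h4 : v.val ((X.det.frame v : K) * κ * (F.det.frame v : K)) ≤ v.val (E.det.frame v : K) := h2
    rw [map_mul, map_mul] at h4
    rwa [mul_comm (v.val (X.det.frame v : K)), mul_assoc] at h4
  have hdeg : R.degree = E.det.degree := by
    rw [hR, lmul_degree, lmul_degree, lprin_degree, zero_add]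
    exact (h.degree hK).symm
  intro v
  have h1 := lstalk_eq_of_degree_eq hK (L := R) (M := E.det) (fun v s hs => le_trans hs (hle v)) hdeg v
  have h2 : (E.det.frame v : K) ∈ R.stalk v := by
    rw [h1]
    exact le_refl (v.val (E.det.frame v : K))
  rw [Units.val_mk0, ← hRv]
  exact le_antisymm h2 (hle v)

/-- subtracting a point at which a section does not vanish -/
theorem exists_lsub_lt (hK : IsCurve K) (hg : genus K ≠ 0) (N : LineBundle K) {k : ℕ}
    (h : l0 N ≤ k + 1) : ∃ p : Point K, l0 (lsub N p) ≤ k := by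
  have hfin : ∀ M : LineBundle K, FiniteDimensional ℂ (H0 M) := fun M => (rrL hK hg M).1
  by_cases hk : l0 N ≤ k
  · obtain ⟨p⟩ := point_nonempty hK
    refine ⟨p, le_trans ?_ hk⟩
    have := hfin N
    apply Submodule.finrank_mono
    apply H0_mono
    intro w s hs
    rw [lsub, mem_lmul_linv] at hs
    rcases eq_or_ne w p with rfl | hw
    · have h1 : w.val ((unif w)⁻¹) = (w.val (unif w))⁻¹ := map_inv₀ _ _
      rw [lpt_frame_self] at hs
      change w.val (s * _) ≤ _ at hs
      rw [map_mul, h1] at hs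
      change w.val s ≤ _
      refine le_trans ?_ hs
      have h2 : (1 : ℤᵐ⁰) ≤ (w.val (unif w))⁻¹ := by
        rw [one_le_inv₀ (zero_lt_iff.2 (w.val_ne_zero (unif_ne_zero w)))]
        exact (val_unif_lt w).le
      exact le_mul_of_one_le_right' h2
    · rw [lpt_frame_ne hw, Units.val_one, mul_one] at hs
      exact hs
  · have h1 : 0 < l0 N := by omega
    have := hfin N
    have := Module.nontrivial_of_finrank_pos h1
    obtain ⟨⟨s, hs⟩, hs0⟩ := exists_ne (0 : H0 N)
    have hs0' : s ≠ 0 := fun h => hs0 (Subtype.ext h)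
    have hf1 : {v : Point K | v.val s ≠ 1}.Finite := (lprin hK (Units.mk0 s hs0')).finite
    have := Pool.Agent.W525.BA.infinite_points hK
    obtain ⟨p, hp⟩ := (hf1.union N.finite).exists_notMem
    simp only [Set.mem_union, Set.mem_ofPred_eq, not_or, not_not] at hp
    refine ⟨p, ?_⟩
    by_contra hcon
    rw [not_le] at hcon
    have hle : H0 (lsub N p) ≤ H0 N := by
      apply H0_mono
      intro w s hs
      rcases eq_or_ne w p with rfl | hw
      · rw [lsub, mem_lmul_linv, lpt_frame_self] at hs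
        change w.val (s * _) ≤ _ at hs
        rw [map_mul, map_inv₀] at hs
        change w.val s ≤ _
        refine le_trans ?_ hs
        have h2 : (1 : ℤᵐ⁰) ≤ (w.val (unif w))⁻¹ := by
          rw [one_le_inv₀ (zero_lt_iff.2 (w.val_ne_zero (unif_ne_zero w)))]
          exact (val_unif_lt w).le
        exact le_mul_of_one_le_right' h2
      · rw [lsub, mem_lmul_linv, lpt_frame_ne hw, Units.val_one, mul_one] at hs
        exact hs
    have heq : H0 (lsub N p) = H0 N := by
      apply Submodule.eq_of_le_of_finrank_le hle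
      unfold l0 at *
      omega
    have h3 : s ∈ H0 (lsub N p) := by rw [heq]; exact hs
    have h4 := h3 p
    rw [lsub, mem_lmul_linv, lpt_frame_self] at h4
    change p.val (s * _) ≤ _ at h4
    rw [map_mul, map_inv₀, hp.1, hp.2, one_mul] at h4
    have h5 : (1 : ℤᵐ⁰) < (p.val (unif p))⁻¹ := by
      rw [one_lt_inv₀ (zero_lt_iff.2 (p.val_ne_zero (unif_ne_zero p)))]
      exact val_unif_lt p
    exact absurd h4 (not_le.2 h5)

end Pool.Agent.TH186
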