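import Pool.Agent.TH186.CliffLB

/-!
# `Cliff_3(C) = 3`
-/

set_option autoImplicit false

open scoped WithZero Matrix
open Pool.Agent.Helper395.CS hiding genus
open Pool.Agent.Helper395.BC
open Pool.Agent.W525.BNK (mem_det_one det_one_degree)
open Pool.Agent.W525.BA (h0_scale)

namespace Pool.Agent.TH186

variable {K : Type} [Field K] [Algebra ℂ K] {n : ℕ}

/-- subbundles of `L^{⊕ n}` -/
theorem sub_lsum_degree (hK : IsCurve K) (L : LineBundle K) {n m : ℕ} {F : Bundle K m}
    {j : (Fin m → K) →ₗ[K] (Fin n → K)} (hj : IsSubbundle F (lsum L n) j) :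
    F.degree ≤ m * L.degree := by
  have h0 : ∀ (m : ℕ) (F : Bundle K m) (j : (Fin m → K) →ₗ[K] (Fin n → K)),
      IsSubbundle F (trivialBundle K n) j → F.degree ≤ 0 := by
    intro m F j hj
    obtain ⟨J, rfl⟩ : ∃ J : Matrix (Fin n) (Fin m) K, j = J.mulVecLin :=
      ⟨LinearMap.toMatrix' j, (Matrix.toLin'_toMatrix' j).symm⟩
    obtain ⟨e, he⟩ := exists_minor J hj.injective
    have h1 := (degree_compare hK (E := trivialBundle K m) (F := F)
      (A := Matrix.GeneralLinearGroup.mkOfDetNeZero _ he) (fun v s hs => by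
        rw [mem_trivial]
        have h2 := (mem_trivial v _).1 ((hj.stalk v s).1 hs)
        intro i
        exact h2 (e i))).1
    rwa [trivialBundle_degree] at h1
  have h1 : IsSubbundle (btw F (linv L)) (trivialBundle K n) j := by
    refine ⟨hj.injective, fun v s => ?_⟩
    rw [mem_btw, linv_frame_inv, hj.stalk v, mem_lsum_stalk, mem_trivial, map_smul]
    unfold Point.Reg LineBundle.stalk
    refine forall_congr' fun i => ?_
    rw [Pi.smul_apply, smul_eq_mul]
    change v.val _ ≤ v.val _ ↔ _
    rw [map_mul]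
    exact mul_le_iff_le_one_right (frame_pos L v)
  have h2 := h0 m _ j h1
  rw [btw_degree, linv_degree] at h2
  linarith

/-- The rank-3 Clifford index of a curve of Clifford index 3 and genus at least 9. -/
theorem cliff3 (hPR : PRProp) (hK : IsCurve K) (hg : 9 ≤ genus K) (hU : UProp K) (hS : SProp K)
    (h : IsCliff K 1 3) : IsCliff K 3 3 := by
  have hg0 : genus K ≠ 0 := by omega
  have hLB := lb_of_cliff hK hg0 h
  constructor
  · -- the bundle `A ⊕ A ⊕ A`
    obtain ⟨A, hA, hAγ⟩ := h.1
    set L := A.det with hL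
    have h1 := h0_one A
    have hd : A.degree = L.degree := (det_one_degree A).symm
    have h2 := hA.sections
    have h3 := hA.slope
    have h4 : Module.finrank ℂ (lsum L 3).sections = 3 * l0 L := by
      have hfin := (rrL hK hg0 L).1
      rw [(secEquiv L 3).finrank_eq, Module.finrank_pi_fintype]
      simp
    have h5 : (l0 L : ℤ) = Module.finrank ℂ A.sections := by
      unfold h0 at h1
      rw [h1]
    refine ⟨lsum L 3, ⟨?_, ?_, ?_⟩, ?_⟩
    · intro m F j hm hj
      have h6 := sub_lsum_degree hK L hj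
      rw [lsum_degree]
      have hm' : (0 : ℚ) < m := by exact_mod_cast hm
      push_cast
      rw [div_le_iff₀ hm']
      have h7 : (F.degree : ℚ) ≤ ((m * L.degree : ℤ) : ℚ) := by exact_mod_cast h6
      push_cast at h7
      linarith
    · rw [h4]
      unfold h0 at h1
      omega
    · rw [lsum_degree]
      push_cast
      rw [hd] at h3
      push_cast at h3
      linarith
    · unfold gam at hAγ ⊢
      rw [h4, lsum_degree]
      rw [hd] at hAγ
      have h6 : (Module.finrank ℂ A.sections : ℚ) = (l0 L : ℚ) := by exact_mod_cast h5.symm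
      rw [h6] at hAγ
      push_cast at hAγ ⊢
      linarith
  · rintro x ⟨E, hE, rfl⟩
    by_contra hlt
    rw [not_le] at hlt
    -- `3 γ(E)` is an integer
    have h1 : gam E ≤ 8 / 3 := by
      unfold gam at hlt ⊢
      push_cast at hlt ⊢
      rw [div_lt_iff₀ (by norm_num)] at hlt
      rw [div_le_iff₀ (by norm_num)]
      have h2 : (E.degree - 2 * ((Module.finrank ℂ E.sections : ℤ) - 3) : ℤ) < 9 := by
        have : ((E.degree - 2 * ((Module.finrank ℂ E.sections : ℤ) - 3) : ℤ) : ℚ) < (9 : ℤ) := by
          push_cast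
          linarith
        exact_mod_cast this
      have h3 : (E.degree - 2 * ((Module.finrank ℂ E.sections : ℤ) - 3) : ℤ) ≤ 8 := by omega
      have h4 : ((E.degree - 2 * ((Module.finrank ℂ E.sections : ℤ) - 3) : ℤ) : ℚ) ≤ (8 : ℤ) := by
        exact_mod_cast h3
      push_cast at h4
      linarith
    exact (hyp3_of_contributes hE h1).false hPR hLB hK hg hU hS

theorem IsCliff.unique {γ γ' : ℚ} (h : IsCliff K n γ) (h' : IsCliff K n γ') : γ = γ' :=
  IsLeast.unique h h'

end Pool.Agent.TH186
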