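import Pool.Agent.TH186.Api3

/-!
# Bounds for bundles of rank two
-/

set_option autoImplicit false

open scoped WithZero Matrix
open Pool.Agent.Helper395.CS hiding genus
open Pool.Agent.Helper395.BC
open Pool.Agent.W525.BNK (mem_det_one det_one_degree)

namespace Pool.Agent.TH186

/-- The lemma of Paranjape and Ramanan. -/
def PRProp : Prop := ∀ (K : Type) [Field K] [Algebra ℂ K] (n : ℕ) (_ : 0 < n)
    (V : Submodule ℂ (Fin n → K)) [FiniteDimensional ℂ V] (_ : n ≤ Module.finrank ℂ V)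
    (W : Submodule ℂ K) [FiniteDimensional ℂ W]
    (_ : ∀ s : Fin n → Fin n → K, (∀ i, s i ∈ V) → (Matrix.of s).det ∈ W)
    (_ : ∀ s : Fin n → Fin n → K, (∀ i, s i ∈ V) → LinearIndependent ℂ s →
      (Matrix.of s).det ≠ 0),
    n * (Module.finrank ℂ V - n) + 1 ≤ Module.finrank ℂ W

variable {K : Type} [Field K] [Algebra ℂ K]

theorem pr2 (hPR : PRProp) (hK : IsCurve K) (hg : genus K ≠ 0) {G : Bundle K 2} (h : NoLine G)
    (h2 : 2 ≤ h0 G) : 2 * h0 G ≤ l0 G.det + 3 := by
  have := (rr hK hg G).1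
  have := (rrL hK hg G.det).1
  have h3 := hPR K 2 (by norm_num) G.sections h2 (H0 G.det) (fun s hs => det_mem_H0 G hs)
    (fun s hs hli => det_ne_zero_two hK hg h s hs hli)
  unfold h0 l0 at *
  omega

theorem pr3 (hPR : PRProp) (hK : IsCurve K) (hg : genus K ≠ 0) {G : Bundle K 3} (h : NoLine G)
    (h' : NoPlane G) (h3 : 3 ≤ h0 G) : 3 * h0 G ≤ l0 G.det + 8 := by
  have := (rr hK hg G).1
  have := (rrL hK hg G.det).1
  have h4 := hPR K 3 (by norm_num) G.sections h3 (H0 G.det) (fun s hs => det_mem_H0 G hs)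
    (fun s hs hli => det_ne_zero_three hK hg h h' s hs hli)
  unfold h0 l0 at *
  omega

theorem LB.det {n : ℕ} (h : LB K) (G : Bundle K n) : l0 G.det ≤ 1 ∨
    2 * (l0 G.det : ℤ) + 1 ≤ G.degree ∨ (l0 G.det : ℤ) + genus K ≤ G.degree + 2 := h G.det

/-- There are no bundles of rank two of small slope with many sections all of whose line subbundles
have small degree. -/
theorem rank2 (hPR : PRProp) (hLB : LB K) (hK : IsCurve K) (hg : 9 ≤ genus K) (F : Bundle K 2)
    (hf : F.degree ≤ 2 * (genus K : ℤ) - 2) (h4 : 4 ≤ h0 F) (h2 : F.degree ≤ 2 * h0 F + 1)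
    (hsub : ∀ (X : Bundle K 1) (i : (Fin 1 → K) →ₗ[K] (Fin 2 → K)), IsSubbundle X F i →
      X.degree + 5 ≤ F.degree) : False := by
  have hg0 : genus K ≠ 0 := by omega
  by_cases hN : NoLine F
  · have h3 := pr2 hPR hK hg0 hN (by omega)
    have h5 := hLB.det F
    omega
  · unfold NoLine at hN
    push Not at hN
    obtain ⟨X, i, hX, hX1⟩ := hN
    obtain ⟨Y, P, hQ⟩ := exists_quot (q := 1) hK hX (by norm_num)
    have h3 := hQ.degree hK
    have h5 := hQ.h0_le hK hg0
    have h6 := hLB.bundle X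
    have h7 := hLB.bundle Y
    have h8 := hsub X i hX
    omega

end Pool.Agent.TH186
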