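import Pool.Agent.TH186.Rank3
import Pool.Agent.TH186.DetExact

/-!
# Bundles of rank three on curves of genus seven and eight: the large degrees
-/

set_option autoImplicit false

open scoped WithZero Matrix
open Pool.Agent.Helper395.CS hiding genus
open Pool.Agent.Helper395.BC
open Pool.Agent.W525.BNK (mem_det_one det_one_degree)
open Pool.Agent.W525.BA (h0_scale h0_lsub)

namespace Pool.Agent.TH186.Low

variable {K : Type} [Field K] [Algebra ℂ K]

/-- There are no bundles of rank two of small slope with many sections all of whose line subbundles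
have small degree. -/
theorem rank2 (hPR : PRProp) (hLB : LB K) (hK : IsCurve K) (hg : 7 ≤ genus K) (F : Bundle K 2)
    (hf : F.degree ≤ 2 * (genus K : ℤ) - 2) (h4 : 4 ≤ h0 F) (h2 : F.degree ≤ 2 * h0 F + 1)
    (hsub : ∀ (X : Bundle K 1) (i : (Fin 1 → K) →ₗ[K] (Fin 2 → K)), IsSubbundle X F i →
      X.degree + 5 ≤ F.degree) : False := by
  have hg0 : genus K ≠ 0 := by omega
  by_cases hN : NoLine F
  · have h3 := pr2 hPR hK hg0 hN (by omega)
    have h5 := hLB.det F
    omega
  · unfold NoLine at hN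
    push Not at hN
    obtain ⟨X, i, hX, hX1⟩ := hN
    obtain ⟨Y, P, hQ⟩ := exists_quot (q := 1) hK hX (by norm_num)
    have h3 := hQ.degree hK
    have h5 := hQ.h0_le hK hg0
    have h6 := hLB.bundle X
    have h7 := hLB.bundle Y
    have h8 := hsub X i hX
    omega

section

variable (hPR : PRProp) (hLB : LB K) (hK : IsCurve K) (hg : 7 ≤ genus K) {E : Bundle K 3}
  (H : Hyp3 E)

include hPR hLB hK hg H

/-- there is no line subbundle with two sections -/
theorem noLine : NoLine E := by
  have hg0 : genus K ≠ 0 := by omega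
  intro X j hj
  by_contra hX
  obtain ⟨F, P, hQ⟩ := exists_quot (q := 2) hK hj (by norm_num)
  have h1 := hLB.bundle X
  have h2 := H.ss1 X j hj
  have h3 := hQ.degree hK
  have h4 := hQ.h0_le hK hg0
  have h5 := H.slope
  have h6 := H.gamma
  have h7 := H.six
  have hZ : ∀ (Z : Bundle K 1) (i : (Fin 1 → K) →ₗ[K] (Fin 2 → K)), IsSubbundle Z F i →
      3 * (X.degree + Z.degree) ≤ 2 * E.degree := by
    intro Z i hZ
    obtain ⟨E', i', hE', hd, -, -⟩ := hQ.pre hK hg0 hZ
    have := H.ss2 E' i' hE'
    omega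
  rcases le_or_gt F.degree (2 * (genus K : ℤ) - 2) with hf | hf
  · refine rank2 hPR hLB hK hg F hf (by omega) (by omega) fun Z i hZi => ?_
    have := hZ Z i hZi
    omega
  · have h8 := dK_degree hK hg0 F
    have h9 := dK_h0 hK hg0 F
    refine rank2 hPR hLB hK hg (dK hK hg0 F) (by push_cast at h8; omega)
      (by push_cast at h8 h9; omega) (by push_cast at h8 h9; omega) fun A i hA => ?_
    obtain ⟨N, B, j', P', hQ', h10, h11⟩ := quot_of_dK_sub (m := 1) hK hg0 hA (by norm_num)
    have h12 := hQ'.degree hK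
    have h13 := hZ N j' hQ'.sub
    push_cast at h8 h10
    omega

theorem not_noPlane : ¬ NoPlane E := by
  have hg0 : genus K ≠ 0 := by omega
  intro h
  have h1 := pr3 hPR hK hg0 (noLine hPR hLB hK hg H) h (by have := H.six; omega)
  have h2 := hLB.det E
  have h5 := H.slope
  have h6 := H.gamma
  have h7 := H.six
  omega

/-- numerical properties of the subbundles of rank two with three sections -/
theorem plane {N : Bundle K 2} {M : Bundle K 1} {j : (Fin 2 → K) →ₗ[K] (Fin 3 → K)}
    {P : (Fin 3 → K) →ₗ[K] (Fin 1 → K)} (hQ : IsQuot N E M j P) (h3 : 3 ≤ h0 N) :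
    (N.degree = 7 ∧ h0 N = 3 ∧ E.degree = 2 * h0 E + 2 ∧ h0 M + 3 = h0 E ∧
      M.degree = 2 * h0 E - 5) ∨
    ((h0 M : ℤ) + genus K ≤ M.degree + 2 ∧ 2 * (genus K : ℤ) + 2 ≤ E.degree) := by
  have hg0 : genus K ≠ 0 := by omega
  have h0' := (noLine hPR hLB hK hg H).sub hQ.sub
  have h1 := pr2 hPR hK hg0 h0' (by omega)
  have h2 := hLB.det N
  have h4 := hLB.bundle M
  have h5 := H.slope
  have h6 := H.gamma
  have h7 := H.six
  have h8 := hQ.degree hK
  have h9 := hQ.h0_le hK hg0
  have h10 := H.ss2 N j hQ.sub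
  omega

theorem degree_lt : E.degree < 2 * (genus K : ℤ) + 2 := by
  have hg0 : genus K ≠ 0 := by omega
  by_contra hd
  rw [not_lt] at hd
  have h5 := H.slope
  have h6 := H.gamma
  have h7 := H.six
  -- the dual has no line subbundle with two sections
  have hN : NoLine (dK hK hg0 E) := by
    intro A i hA
    by_contra hA1
    obtain ⟨N, B, j, P, hQ, h1, h2⟩ := quot_of_dK_sub (m := 2) hK hg0 hA (by norm_num)
    have h3 := hQ.degree hK
    have h4 := hQ.h0_le hK hg0
    have h8 := hLB.bundle A
    have h9 := hLB.bundle B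
    push_cast at h1 h2
    by_cases h10 : 3 ≤ h0 N
    · rcases plane hPR hLB hK hg H hQ h10 with h11 | h11 <;> omega
    · omega
  -- sections which vanish at two points
  have hpq : ∀ p q : Point K, ∃ (X : Bundle K 1) (i : (Fin 1 → K) →ₗ[K] (Fin 3 → K))
      (x : Fin 1 → K) (F : Bundle K 2) (P : (Fin 3 → K) →ₗ[K] (Fin 2 → K)),
      IsQuot X E F i P ∧ x ≠ 0 ∧ i x ∈ (tw (tw E p) q).sections ∧ X.degree = 2 ∧
      genus K = 7 ∧ (E.degree = 18 ∨ E.degree = 16) ∧
      (dK hK hg0 F).degree - 5 ≤ l0 (dK hK hg0 F).det := by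
    intro p q
    have h1 := h0_tw hK hg0 E p
    have h2 := h0_tw hK hg0 (tw E p) q
    have h3 : 0 < h0 (tw (tw E p) q) := by omega
    have := Module.nontrivial_of_finrank_pos h3
    obtain ⟨⟨u, hu⟩, hu0⟩ := exists_ne (0 : (tw (tw E p) q).sections)
    have hu0' : u ≠ 0 := fun h => hu0 (Subtype.ext h)
    obtain ⟨X, i, x, hX, hx, hX2⟩ := exists_line_two hK hg0 hu0' hu
    obtain ⟨F, P, hQ⟩ := exists_quot (q := 2) hK hX (by norm_num)
    have h8 := hQ.degree hK
    have h9 := hQ.h0_le hK hg0
    have h10 := noLine hPR hLB hK hg H X i hX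
    obtain ⟨i', hi'⟩ := hQ.dK hK hg0
    have h11 := hN.sub hi'
    have h12 := dK_degree hK hg0 F
    have h13 := dK_h0 hK hg0 F
    push_cast at h12 h13
    have h14 := pr2 hPR hK hg0 h11 (by omega)
    have h15 := hLB.det (dK hK hg0 F)
    refine ⟨X, i, x, F, P, hQ, ?_, ?_, ?_, ?_, ?_, ?_⟩
    · rintro rfl
      rw [map_zero] at hx
      exact hu0' hx.symm
    · rw [hx]
      exact hu
    all_goals omega
  obtain ⟨p₀⟩ := point_nonempty hK
  obtain ⟨-, -, -, -, -, -, -, -, -, hg7, hE, -⟩ := hpq p₀ p₀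
  -- the line bundle `det E - K`
  set Γ : LineBundle K := lmul E.det (linv (can hK hg0)) with hΓ
  have hΓd : Γ.degree = E.degree - 12 := by
    rw [hΓ, lmul_degree, linv_degree, can_degree]
    change E.degree + _ = _
    rw [hg7]
    norm_num
    ring
  have hΓ2 : l0 Γ ≤ 2 := by
    have := hLB Γ
    unfold l0
    omega
  obtain ⟨p, hp⟩ := exists_lsub_lt hK hg0 Γ (k := 1) hΓ2
  obtain ⟨q, hq⟩ := exists_lsub_lt hK hg0 (lsub Γ p) (k := 0) hp
  obtain ⟨X, i, x, F, P, hQ, hx0, hx, hX2, -, -, hF⟩ := hpq p q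
  obtain ⟨κ, hκ⟩ := det_exact_one hK hQ
  -- `X = O(p + q)`
  have hxX : x ∈ (tw (tw X p) q).sections := fun v => by
    rw [(tw_sub (tw_sub hQ.sub p) q).stalk]
    exact hx v
  set T : LineBundle K := lsub (lsub X.det p) q with hT
  have hTd : T.degree = 0 := by
    rw [hT, lsub_degree, lsub_degree]
    change X.degree - 1 - 1 = 0
    omega
  have hx0' : x 0 ≠ 0 := by
    intro h
    apply hx0
    funext i
    rw [Subsingleton.elim i 0, h]
    rfl
  have hTle : ∀ v : Point K, v.val (x 0) ≤ v.val (T.frame v : K) := by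
    intro v
    have h1 := hxX v
    rw [mem_tw, mem_tw, mem_det_one] at h1
    have h2 : x 0 ∈ T.stalk v := by
      rw [hT, lsub, mem_lmul_linv, lsub, mem_lmul_linv]
      simp only [Pi.smul_apply, smul_eq_mul] at h1
      change v.val _ ≤ _
      change v.val _ ≤ _ at h1
      convert h1 using 2
      ring
    exact h2
  have hTv : ∀ v : Point K, v.val (T.frame v : K) = v.val (x 0) := by
    intro v
    have h1 := lstalk_eq_of_degree_eq hK (L := lprin hK (Units.mk0 (x 0) hx0')) (M := T)
      (fun v s hs => le_trans hs (hTle v)) (by rw [lprin_degree, hTd]) v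
    have h2 : (T.frame v : K) ∈ (lprin hK (Units.mk0 (x 0) hx0')).stalk v := by
      rw [h1]
      exact le_refl (v.val (T.frame v : K))
    exact le_antisymm h2 (hTle v)
  -- Riemann-Roch for the determinant of the dual
  set D : LineBundle K := (Pool.Agent.TH186.dK hK hg0 F).det with hD
  have hrr := (rrL hK hg0 D).2
  have h12 := dK_degree hK hg0 F
  have h13 : (1 : ℤ) ≤ l0 (lmul (can hK hg0) (linv D)) := by
    have h14 : D.degree = (Pool.Agent.TH186.dK hK hg0 F).degree := rfl
    rw [h14] at hrr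
    unfold l0 at *
    omega
  have h15 := h0_scale (L := lsub (lsub Γ p) q) (M := lmul (can hK hg0) (linv D))
    ((κ : K) * x 0) (mul_ne_zero κ.ne_zero hx0') (fun v => by
      have e1 : v.val (D.frame v : K) * v.val (F.det.frame v : K) =
          v.val ((can hK hg0).frame v : K) * v.val ((can hK hg0).frame v : K) := by
        rw [← map_mul, ← map_mul]
        congr 1
        change ((lsum (can hK hg0) 2).frame v * gdual (F.frame v)).1.det * (F.frame v).1.det = _
        rw [Units.val_mul, Matrix.det_mul]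
        change (Matrix.diagonal fun _ : Fin 2 => ((can hK hg0).frame v : K)).det *
          ((F.frame v)⁻¹.1ᵀ).det * (F.frame v).1.det = _
        rw [Matrix.det_diagonal, Matrix.det_transpose, gl_inv_det, Fin.prod_univ_two,
          inv_mul_cancel_right₀ (gl_det_ne_zero (F.frame v))]
      have e2 := hTv v
      have e3 := hκ v
      have hD0 : v.val (D.frame v : K) ≠ 0 := v.val_ne_zero (Units.ne_zero _)
      have hF0 : v.val (F.det.frame v : K) ≠ 0 := v.val_ne_zero (Units.ne_zero _)
      have hX0 : v.val (X.det.frame v : K) ≠ 0 := v.val_ne_zero (Units.ne_zero _)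
      have hC0 : v.val ((can hK hg0).frame v : K) ≠ 0 := v.val_ne_zero (Units.ne_zero _)
      have hp0 : v.val ((lpt p).frame v : K) ≠ 0 := v.val_ne_zero (Units.ne_zero _)
      have hq0 : v.val ((lpt q).frame v : K) ≠ 0 := v.val_ne_zero (Units.ne_zero _)
      have f1 : v.val ((lmul (can hK hg0) (linv D)).frame v : K) =
          v.val ((can hK hg0).frame v : K) * (v.val (D.frame v : K))⁻¹ := by
        change v.val ((((can hK hg0).frame v) * (D.frame v)⁻¹ : Kˣ) : K) = _
        rw [Units.val_mul, Units.val_inv_eq_inv_val, map_mul, map_inv₀]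
      have f2 : v.val (T.frame v : K) = v.val (X.det.frame v : K) *
          (v.val ((lpt p).frame v : K))⁻¹ * (v.val ((lpt q).frame v : K))⁻¹ := by
        change v.val (((X.det.frame v * ((lpt p).frame v)⁻¹) * ((lpt q).frame v)⁻¹ : Kˣ) : K) = _
        rw [Units.val_mul, Units.val_mul, Units.val_inv_eq_inv_val, Units.val_inv_eq_inv_val,
          map_mul, map_mul, map_inv₀, map_inv₀]
      have f3 : v.val ((lsub (lsub Γ p) q).frame v : K) = v.val (E.det.frame v : K) *
          (v.val ((can hK hg0).frame v : K))⁻¹ *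
          (v.val ((lpt p).frame v : K))⁻¹ * (v.val ((lpt q).frame v : K))⁻¹ := by
        change v.val ((((E.det.frame v * ((can hK hg0).frame v)⁻¹) * ((lpt p).frame v)⁻¹) *
          ((lpt q).frame v)⁻¹ : Kˣ) : K) = _
        rw [Units.val_mul, Units.val_mul, Units.val_mul, Units.val_inv_eq_inv_val,
          Units.val_inv_eq_inv_val, Units.val_inv_eq_inv_val, map_mul, map_mul, map_mul,
          map_inv₀, map_inv₀, map_inv₀]
      rw [f1, f3, e3, map_mul, ← e2, f2]
      field_simp
      rw [e1, sq])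
  unfold l0 at *
  omega

end

end Pool.Agent.TH186.Low
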